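import Pool.Agent.Lib_MP_b3cab1_an.Defs

set_option autoImplicit false

/-!
# Musielak-Orlicz sequence spaces `h_M`

`M : ℕ → OrliczFunction` is a sequence of Orlicz functions and `MusSeq M` is the Musielak-Orlicz
sequence space `h_M` of all real sequences `x` with `∑ M_i (K |x i|) < ∞` for all `K > 0`, with the
Luxemburg norm `‖x‖ = inf {r > 0 : ∑ M_i (|x i| / r) ≤ 1}`.
-/

open Filter Topology Set

namespace Pool.Agent.LibMusielak

open Pool.Agent.LibOrlicz (OrliczFunction)

/-- The Musielak-Orlicz sequence space `h_M`, as a linear subspace of the space of all real sequences. -/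
def musSubmodule (M : ℕ → OrliczFunction) : Submodule ℝ (ℕ → ℝ) where
  carrier := {x | ∀ K : ℝ, 0 < K → Summable fun i => M i (K * |x i|)}
  zero_mem' := by
    intro K _
    simp
  add_mem' := by
    intro x y hx hy K hK
    refine Summable.of_nonneg_of_le (f := fun i => (M i (2 * K * |x i|) + M i (2 * K * |y i|)) / 2)
      (fun i => (M i).nonneg (by positivity)) (fun i => ?_)
      (((hx (2 * K) (by positivity)).add (hy (2 * K) (by positivity))).div_const 2)
    have h1 : K * |(x + y) i| ≤ K * |x i| + K * |y i| := by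
      rw [← mul_add]
      exact mul_le_mul_of_nonneg_left (abs_add_le _ _) hK.le
    refine ((M i).mono (by positivity) h1).trans ?_
    have h2 := (M i).avg_le (s := K * |x i|) (t := K * |y i|) (by positivity) (by positivity)
    rwa [← mul_assoc, ← mul_assoc] at h2
  smul_mem' := by
    intro c x hx K hK
    rcases eq_or_ne c 0 with h | h
    · simp [h]
    · have h1 := hx (K * |c|) (by positivity)
      refine h1.congr (fun i => ?_)
      rw [Pi.smul_apply, smul_eq_mul, abs_mul, mul_assoc]

/-- The Musielak-Orlicz sequence space `h_M`. -/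
def MusSeq (M : ℕ → OrliczFunction) : Type := musSubmodule M

variable {M : ℕ → OrliczFunction}

instance : AddCommGroup (MusSeq M) := inferInstanceAs (AddCommGroup (musSubmodule M))

instance : Module ℝ (MusSeq M) := inferInstanceAs (Module ℝ (musSubmodule M))

/-- The `i`-th coordinate of a sequence `x` of `h_M`. -/
def MusSeq.coord (x : MusSeq M) (i : ℕ) : ℝ := x.1 i

namespace MusSeq

@[simp] lemma coord_add (x y : MusSeq M) (i : ℕ) : (x + y).coord i = x.coord i + y.coord i :=
  rfl

@[simp] lemma coord_sub (x y : MusSeq M) (i : ℕ) : (x - y).coord i = x.coord i - y.coord i :=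
  rfl

@[simp] lemma coord_neg (x : MusSeq M) (i : ℕ) : (-x).coord i = -x.coord i := rfl

@[simp] lemma coord_zero (i : ℕ) : (0 : MusSeq M).coord i = 0 := rfl

@[simp] lemma coord_smul (c : ℝ) (x : MusSeq M) (i : ℕ) : (c • x).coord i = c * x.coord i :=
  rfl

lemma ext_coord {x y : MusSeq M} (h : ∀ i, x.coord i = y.coord i) : x = y :=
  Subtype.ext (funext h)

lemma summable (x : MusSeq M) {K : ℝ} (hK : 0 < K) :
    Summable fun i => M i (K * |x.coord i|) := x.2 K hK

lemma summable_div (x : MusSeq M) {r : ℝ} (hr : 0 < r) :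
    Summable fun i => M i (|x.coord i| / r) := by
  refine (x.summable (inv_pos.2 hr)).congr (fun i => ?_)
  rw [div_eq_inv_mul]

/-- a sequence of `h_M` from a summability property -/
def mk (f : ℕ → ℝ) (hf : ∀ K : ℝ, 0 < K → Summable fun i => M i (K * |f i|)) : MusSeq M := ⟨f, hf⟩

@[simp] lemma coord_mk (f : ℕ → ℝ) (hf) (i : ℕ) : (mk (M := M) f hf).coord i = f i := rfl

/-- The modular `∑ M i (K |x i|)`. -/
noncomputable def mod (K : ℝ) (x : MusSeq M) : ℝ := ∑' i, M i (K * |x.coord i|)

lemma mod_nonneg {K : ℝ} (hK : 0 ≤ K) (x : MusSeq M) : 0 ≤ mod K x :=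
  tsum_nonneg fun i => (M i).nonneg (by positivity)

lemma mod_mono {K L : ℝ} (hK : 0 < K) (hKL : K ≤ L) (x : MusSeq M) : mod K x ≤ mod L x :=
  (x.summable hK).tsum_le_tsum (fun i => (M i).mono (by positivity)
    (mul_le_mul_of_nonneg_right hKL (abs_nonneg _))) (x.summable (hK.trans_le hKL))

lemma mod_smul {K : ℝ} (c : ℝ) (x : MusSeq M) : mod K (c • x) = mod (K * |c|) x := by
  unfold mod
  refine tsum_congr (fun i => ?_)
  rw [coord_smul, abs_mul, mul_assoc]

/-- `mod (l K) ≤ l mod K` for `0 < l ≤ 1` -/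
lemma mod_mul_le {K l : ℝ} (hK : 0 < K) (hl : 0 < l) (hl1 : l ≤ 1) (x : MusSeq M) :
    mod (l * K) x ≤ l * mod K x := by
  unfold mod
  rw [← tsum_mul_left]
  refine (x.summable (by positivity)).tsum_le_tsum (fun i => ?_)
    ((x.summable hK).mul_left l)
  rw [mul_assoc]
  exact (M i).smul_le hl.le hl1 (by positivity)

lemma mod_add_le {K a b : ℝ} (hK : 0 < K) (ha : 0 < a) (hb : 0 < b) (x y : MusSeq M) :
    mod (K / (a + b)) (x + y) ≤ a / (a + b) * mod (K / a) x + b / (a + b) * mod (K / b) y := by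
  unfold mod
  rw [← tsum_mul_left, ← tsum_mul_left, ← Summable.tsum_add ((x.summable (by positivity)).mul_left _)
    ((y.summable (by positivity)).mul_left _)]
  refine ((x + y).summable (by positivity)).tsum_le_tsum (fun i => ?_)
    (((x.summable (by positivity)).mul_left _).add ((y.summable (by positivity)).mul_left _))
  have h1 : K / (a + b) * |(x + y).coord i| ≤
      a / (a + b) * (K / a * |x.coord i|) + b / (a + b) * (K / b * |y.coord i|) := by
    have e : a / (a + b) * (K / a * |x.coord i|) + b / (a + b) * (K / b * |y.coord i|) =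
        K / (a + b) * (|x.coord i| + |y.coord i|) := by
      field_simp
    rw [e, coord_add]
    exact mul_le_mul_of_nonneg_left (abs_add_le _ _) (by positivity)
  refine ((M i).mono (by positivity) h1).trans ?_
  have h2 := (M i).convexOn.2
    (show K / a * |x.coord i| ∈ Set.Ici (0 : ℝ) from by show 0 ≤ K / a * |x.coord i|; positivity)
    (show K / b * |y.coord i| ∈ Set.Ici (0 : ℝ) from by show 0 ≤ K / b * |y.coord i|; positivity)
    (show (0 : ℝ) ≤ a / (a + b) by positivity) (show (0 : ℝ) ≤ b / (a + b) by positivity)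
    (by field_simp)
  simpa using h2

/-- The Luxemburg norm. -/
noncomputable def lux (x : MusSeq M) : ℝ :=
  sInf {r : ℝ | 0 < r ∧ ∑' i, M i (|x.coord i| / r) ≤ 1}

lemma tsum_div (x : MusSeq M) (r : ℝ) : ∑' i, M i (|x.coord i| / r) = mod r⁻¹ x := by
  unfold mod
  refine tsum_congr (fun i => ?_)
  rw [div_eq_inv_mul]

lemma lux_set_nonempty (x : MusSeq M) :
    {r : ℝ | 0 < r ∧ ∑' i, M i (|x.coord i| / r) ≤ 1}.Nonempty := by
  have h0 := mod_nonneg zero_le_one x
  refine ⟨mod 1 x + 1, by linarith, ?_⟩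
  rw [tsum_div]
  have h1 := mod_mul_le (K := 1) (l := (mod 1 x + 1)⁻¹) one_pos (by positivity)
    (inv_le_one_of_one_le₀ (by linarith)) x
  rw [mul_one] at h1
  refine h1.trans ?_
  rw [inv_mul_le_iff₀ (by positivity)]
  linarith

lemma lux_bddBelow (x : MusSeq M) :
    BddBelow {r : ℝ | 0 < r ∧ ∑' i, M i (|x.coord i| / r) ≤ 1} := ⟨0, fun _ hr => hr.1.le⟩

lemma lux_nonneg (x : MusSeq M) : 0 ≤ lux x := Real.sInf_nonneg fun _ hr => hr.1.le

lemma lux_le {x : MusSeq M} {r : ℝ} (hr : 0 < r) (h : mod r⁻¹ x ≤ 1) : lux x ≤ r :=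
  csInf_le (lux_bddBelow x) ⟨hr, by rwa [tsum_div]⟩

lemma mod_le_one {x : MusSeq M} {r : ℝ} (h : lux x < r) : mod r⁻¹ x ≤ 1 := by
  obtain ⟨s, ⟨hs, hs1⟩, hsr⟩ := exists_lt_of_csInf_lt (lux_set_nonempty x) h
  rw [tsum_div] at hs1
  exact (mod_mono (inv_pos.2 (hs.trans hsr)) (inv_anti₀ hs hsr.le) x).trans hs1

lemma lux_zero : lux (0 : MusSeq M) = 0 := by
  apply le_antisymm _ (lux_nonneg _)
  apply le_of_forall_pos_le_add
  intro ε hε
  rw [zero_add]
  apply lux_le hε
  unfold mod
  simp

lemma lux_add_le (x y : MusSeq M) : lux (x + y) ≤ lux x + lux y := by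
  apply le_of_forall_pos_le_add
  intro ε hε
  have hx := mod_le_one (x := x) (r := lux x + ε / 2) (by linarith)
  have hy := mod_le_one (x := y) (r := lux y + ε / 2) (by linarith)
  have hx0 : 0 < lux x + ε / 2 := by linarith [lux_nonneg x]
  have hy0 : 0 < lux y + ε / 2 := by linarith [lux_nonneg y]
  have e : lux x + lux y + ε = (lux x + ε / 2) + (lux y + ε / 2) := by ring
  rw [e]
  apply lux_le (by linarith)
  set a := lux x + ε / 2
  set b := lux y + ε / 2
  have h := mod_add_le (K := 1) one_pos hx0 hy0 x y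
  rw [one_div, one_div, one_div] at h
  refine h.trans ?_
  have h1 : a / (a + b) * mod a⁻¹ x ≤ a / (a + b) * 1 :=
    mul_le_mul_of_nonneg_left hx (by positivity)
  have h2 : b / (a + b) * mod b⁻¹ y ≤ b / (a + b) * 1 :=
    mul_le_mul_of_nonneg_left hy (by positivity)
  have h3 : a / (a + b) * 1 + b / (a + b) * 1 = 1 := by field_simp
  linarith

lemma lux_smul_le (c : ℝ) (x : MusSeq M) : lux (c • x) ≤ |c| * lux x := by
  rcases eq_or_ne c 0 with h | h
  · rw [h, zero_smul, lux_zero, abs_zero, zero_mul]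
  · apply le_of_forall_pos_le_add
    intro ε hε
    have hc : 0 < |c| := abs_pos.2 h
    have hx := mod_le_one (x := x) (r := lux x + ε / |c|) (by
      have : 0 < ε / |c| := by positivity
      linarith)
    have hx0 : 0 < lux x + ε / |c| := by
      have : 0 < ε / |c| := by positivity
      linarith [lux_nonneg x]
    have e : |c| * lux x + ε = |c| * (lux x + ε / |c|) := by field_simp
    rw [e]
    apply lux_le (by positivity)
    rw [mod_smul]
    convert hx using 2
    field_simp

lemma lux_smul (c : ℝ) (x : MusSeq M) : lux (c • x) = |c| * lux x := by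
  apply le_antisymm (lux_smul_le c x)
  rcases eq_or_ne c 0 with h | h
  · rw [h, abs_zero, zero_mul]
    exact lux_nonneg _
  · have h1 := lux_smul_le c⁻¹ (c • x)
    rw [smul_smul, inv_mul_cancel₀ h, one_smul, abs_inv] at h1
    have hc : 0 < |c| := abs_pos.2 h
    have h2 := mul_le_mul_of_nonneg_left h1 hc.le
    rwa [← mul_assoc, mul_inv_cancel₀ hc.ne', one_mul] at h2

lemma lux_neg (x : MusSeq M) : lux (-x) = lux x := by
  have := lux_smul (-1) x
  rwa [neg_one_smul, abs_neg, abs_one, one_mul] at this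

lemma coord_le_of_mod {K : ℝ} (hK : 0 < K) (x : MusSeq M) (i : ℕ) :
    M i (K * |x.coord i|) ≤ mod K x :=
  (x.summable hK).le_tsum i (fun k _ => (M k).nonneg (by positivity))

lemma eq_zero_of_lux (x : MusSeq M) (h : lux x = 0) : x = 0 := by
  apply ext_coord
  intro i
  rw [coord_zero]
  by_contra hne
  have hpos : 0 < |x.coord i| := abs_pos.2 hne
  have h1 : ∀ l : ℝ, 1 ≤ l → l * M i (|x.coord i|) ≤ 1 := by
    intro l hl
    have hl0 : 0 < l := by linarith
    have h2 := mod_le_one (x := x) (r := l⁻¹) (by rw [h]; positivity)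
    rw [inv_inv] at h2
    exact ((M i).le_smul hl hpos.le).trans ((coord_le_of_mod hl0 x i).trans h2)
  have hM := (M i).pos hpos
  have h3 := h1 (max 1 (2 / M i (|x.coord i|))) (le_max_left _ _)
  have h4 : 2 / M i (|x.coord i|) * M i (|x.coord i|) ≤
      max 1 (2 / M i (|x.coord i|)) * M i (|x.coord i|) :=
    mul_le_mul_of_nonneg_right (le_max_right _ _) hM.le
  rw [div_mul_cancel₀ _ hM.ne'] at h4
  linarith

noncomputable instance : NormedAddCommGroup (MusSeq M) :=
  AddGroupNorm.toNormedAddCommGroup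
    { toFun := lux
      map_zero' := lux_zero
      add_le' := lux_add_le
      neg' := lux_neg
      eq_zero_of_map_eq_zero' := eq_zero_of_lux }

lemma norm_def (x : MusSeq M) : ‖x‖ = sInf {r : ℝ | 0 < r ∧ ∑' i, M i (|x.coord i| / r) ≤ 1} :=
  rfl

lemma norm_eq_lux (x : MusSeq M) : ‖x‖ = lux x := rfl

noncomputable instance : NormedSpace ℝ (MusSeq M) where
  norm_smul_le c x := by
    rw [norm_eq_lux, norm_eq_lux, Real.norm_eq_abs]
    exact (lux_smul c x).le

lemma norm_le_of_mod {x : MusSeq M} {K : ℝ} (hK : 0 < K) (h : mod K x ≤ 1) : ‖x‖ ≤ K⁻¹ :=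
  lux_le (inv_pos.2 hK) (by rwa [inv_inv])

lemma mod_le_one_of_norm {x : MusSeq M} {K : ℝ} (h : ‖x‖ < K⁻¹) :
    mod K x ≤ 1 := by
  have := mod_le_one (x := x) (r := K⁻¹) h
  rwa [inv_inv] at this

end MusSeq

end Pool.Agent.LibMusielak
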