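import Pool.Agent.Lib_MP_b3cab1_an.Pieces
import Pool.Agent.Lib_MP_b3cab1_mus.MDefs

set_option autoImplicit false

/-!
# Classes of levels and their capacities
-/

open Filter Topology Set

namespace Pool.Agent.LibMusielak

open Pool.Agent.LibOrlicz (OrliczFunction)

open MusSeq

/-- There are `t i ≥ 0` with `M_i (t i) → 0` and `∑ M_i (t i) = ∞` such that for every `K` there
is `C` with `M_i (K t i) ≤ C M_i (t i)` for all `i`. -/
def HasSlowSeq (M : ℕ → OrliczFunction) : Prop :=
  ∃ t : ℕ → ℝ, (∀ i, 0 ≤ t i) ∧ Tendsto (fun i => M i (t i)) atTop (𝓝 0) ∧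
    ¬ Summable (fun i => M i (t i)) ∧
    ∀ K : ℝ, 0 < K → ∃ C : ℝ, ∀ i, M i (K * t i) ≤ C * M i (t i)

section One

variable (P : OrliczFunction)

lemma exists_small_lev {ε : ℝ} (hε : 0 < ε) : ∃ n, 1 ≤ n ∧ P (P.lev n) ≤ ε := by
  have h := P.tendsto_zero (fun n => (P.lev_pos n).le) P.tendsto_lev
  obtain ⟨N, hN⟩ := eventually_atTop.1 ((tendsto_order.1 h).2 ε hε)
  exact ⟨N + 1, by omega, (hN (N + 1) (by omega)).le⟩

/-- `M s / s ≤ M t / t` for `s ≤ t` -/
lemma div_mono {s t : ℝ} (hs : 0 < s) (hst : s ≤ t) : P s / s ≤ P t / t := by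
  have ht : 0 < t := hs.trans_le hst
  have h1 := P.smul_le (l := s / t) (t := t) (by positivity) ((div_le_one ht).2 hst) ht.le
  rw [div_mul_cancel₀ _ ht.ne'] at h1
  rw [div_le_div_iff₀ hs ht]
  calc P s * t ≤ (s / t * P t) * t := mul_le_mul_of_nonneg_right h1 ht.le
    _ = P t * s := by field_simp

lemma slope_antitone {m n : ℕ} (h : m ≤ n) : P.slope n ≤ P.slope m := by
  have h1 := div_mono P (P.lev_pos n) (P.lev_antitone h)
  unfold OrliczFunction.slope
  rw [mul_div_assoc, mul_div_assoc]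
  linarith

end One

variable (M : ℕ → OrliczFunction)

/-- the last level which is used at the coordinate `i` -/
noncomputable def Lx (i : ℕ) : ℕ :=
  (exists_small_lev (M i) (ε := (1 / 2) ^ (i + 2)) (by positivity)).choose

lemma one_le_Lx (i : ℕ) : 1 ≤ Lx M i :=
  (exists_small_lev (M i) (ε := (1 / 2) ^ (i + 2)) (by positivity)).choose_spec.1

lemma M_Lx_le (i : ℕ) : M i ((M i).lev (Lx M i)) ≤ (1 / 2) ^ (i + 2) :=
  (exists_small_lev (M i) (ε := (1 / 2) ^ (i + 2)) (by positivity)).choose_spec.2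

/-- the levels of the class `(C, J)` -/
def Cls (C : ℕ → ℕ) (J i n : ℕ) : Prop :=
  1 ≤ n ∧ n ≤ Lx M i ∧ M i ((M i).lev n) ≤ (1 / 2) ^ J ∧ ∀ j, j < J → (M i).ratio j n ≤ C j

lemma Cls.congr {C C' : ℕ → ℕ} {J i n : ℕ} (h : ∀ j, j < J → C j = C' j) (h1 : Cls M C J i n) :
    Cls M C' J i n :=
  ⟨h1.1, h1.2.1, h1.2.2.1, fun j hj => by rw [← h j hj]; exact h1.2.2.2 j hj⟩

open Classical in
/-- the largest level of the class at the coordinate `i` -/
noncomputable def fst (C : ℕ → ℕ) (J i : ℕ) : ℕ :=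
  if h : ∃ n, Cls M C J i n then Nat.find h else 0

open Classical in
/-- the capacity of the coordinate `i` -/
noncomputable def mu (C : ℕ → ℕ) (J i : ℕ) : ℝ :=
  if ∃ n, Cls M C J i n then M i ((M i).lev (fst M C J i)) else 0

open Classical in
/-- the largest slope of the class at the coordinate `i` -/
noncomputable def Fc (C : ℕ → ℕ) (J i : ℕ) : ℝ :=
  if ∃ n, Cls M C J i n then (M i).slope (fst M C J i) else 0

variable {M}

lemma fst_spec {C : ℕ → ℕ} {J i : ℕ} (h : ∃ n, Cls M C J i n) : Cls M C J i (fst M C J i) := by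
  classical
  unfold fst
  rw [dif_pos h]
  convert Nat.find_spec h

lemma fst_le {C : ℕ → ℕ} {J i n : ℕ} (h : Cls M C J i n) : fst M C J i ≤ n := by
  classical
  have h1 : ∃ n, Cls M C J i n := ⟨n, h⟩
  unfold fst
  rw [dif_pos h1]
  convert Nat.find_min' h1 h

lemma mu_nonneg (C : ℕ → ℕ) (J i : ℕ) : 0 ≤ mu M C J i := by
  unfold mu
  split
  · exact ((M i).M_lev_pos _).le
  · exact le_rfl

lemma Fc_nonneg (C : ℕ → ℕ) (J i : ℕ) : 0 ≤ Fc M C J i := by
  unfold Fc
  split
  · exact ((M i).slope_pos _).le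
  · exact le_rfl

lemma mu_le (C : ℕ → ℕ) (J i : ℕ) : mu M C J i ≤ (1 / 2) ^ J := by
  unfold mu
  split
  · next h => exact (fst_spec h).2.2.1
  · positivity

lemma le_mu {C : ℕ → ℕ} {J i n : ℕ} (h : Cls M C J i n) : M i ((M i).lev n) ≤ mu M C J i := by
  unfold mu
  rw [if_pos ⟨n, h⟩]
  exact (M i).mono ((M i).lev_pos _).le ((M i).lev_antitone (fst_le h))

lemma le_Fc {C : ℕ → ℕ} {J i n : ℕ} (h : Cls M C J i n) : (M i).slope n ≤ Fc M C J i := by
  unfold Fc
  rw [if_pos ⟨n, h⟩]
  exact slope_antitone _ (fst_le h)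

lemma Cls_iff {C C' : ℕ → ℕ} {J : ℕ} (h : ∀ j, j < J → C j = C' j) (i n : ℕ) :
    Cls M C J i n ↔ Cls M C' J i n :=
  ⟨Cls.congr M h, Cls.congr M (fun j hj => (h j hj).symm)⟩

lemma Fc_congr {C C' : ℕ → ℕ} {J : ℕ} (h : ∀ j, j < J → C j = C' j) (i : ℕ) :
    Fc M C J i = Fc M C' J i := by
  by_cases hex : ∃ n, Cls M C J i n
  · have hex' : ∃ n, Cls M C' J i n := by
      obtain ⟨n, hn⟩ := hex
      exact ⟨n, (Cls_iff h i n).1 hn⟩
    have h1 : fst M C J i = fst M C' J i :=
      le_antisymm (fst_le ((Cls_iff h i _).2 (fst_spec hex')))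
        (fst_le ((Cls_iff h i _).1 (fst_spec hex)))
    unfold Fc
    rw [if_pos hex, if_pos hex', h1]
  · have hex' : ¬ ∃ n, Cls M C' J i n := by
      rintro ⟨n, hn⟩
      exact hex ⟨n, (Cls_iff h i n).2 hn⟩
    unfold Fc
    rw [if_neg hex, if_neg hex']

/-! ### some capacity is finite -/

theorem exists_summable_mu (hM : ¬ HasSlowSeq M) (C : ℕ → ℕ) : ∃ J, Summable (mu M C J) := by
  classical
  by_contra hcon
  push Not at hcon
  apply hM
  -- blocks of mass at least one
  have hblock : ∀ J m : ℕ, ∃ m', m < m' ∧ 1 ≤ ∑ i ∈ Finset.Ico m m', mu M C J i := by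
    intro J m
    have h1 := (not_summable_iff_tendsto_nat_atTop_of_nonneg (mu_nonneg C J)).1 (hcon J)
    obtain ⟨N, hN⟩ := eventually_atTop.1
      (h1.eventually_ge_atTop (1 + ∑ i ∈ Finset.range m, mu M C J i))
    refine ⟨max N (m + 1), by omega, ?_⟩
    have h2 := hN (max N (m + 1)) (le_max_left _ _)
    have h3 := Finset.sum_range_add_sum_Ico (mu M C J) (show m ≤ max N (m + 1) by omega)
    linarith
  choose nx hnx1 hnx2 using hblock
  set b : ℕ → ℕ := fun k => Nat.rec 0 (fun J m => nx J m) k with hb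
  have hbs : ∀ J, b (J + 1) = nx J (b J) := fun J => rfl
  have hb0 : b 0 = 0 := rfl
  have hbmono : StrictMono b := strictMono_nat_of_lt_succ (fun J => by rw [hbs]; exact hnx1 J _)
  have hbge : ∀ J, J ≤ b J := fun J => hbmono.id_le J
  set Jx : ℕ → ℕ := fun i => Nat.findGreatest (fun J => b J ≤ i) i with hJx
  have hJ1 : ∀ i, b (Jx i) ≤ i := by
    intro i
    have := Nat.findGreatest_spec (P := fun J => b J ≤ i) (Nat.zero_le i) (by
      show b 0 ≤ i
      rw [hb0]; exact Nat.zero_le i)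
    exact this
  have hJ2 : ∀ i J, b J ≤ i → J ≤ Jx i := by
    intro i J h
    exact Nat.le_findGreatest ((hbge J).trans h) h
  have hJ3 : ∀ i J, b J ≤ i → i < b (J + 1) → Jx i = J := by
    intro i J h1 h2
    apply le_antisymm
    · by_contra hc
      rw [not_le] at hc
      have h3 : b (J + 1) ≤ b (Jx i) := hbmono.monotone hc
      have := hJ1 i
      omega
    · exact hJ2 i J h1
  set t : ℕ → ℝ := fun i =>
    if ∃ n, Cls M C (Jx i) i n then (M i).lev (fst M C (Jx i) i) else 0 with ht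
  have htmu : ∀ i, M i (t i) = mu M C (Jx i) i := by
    intro i
    rw [ht]
    unfold mu
    show M i (if _ then _ else _) = _
    split
    · rfl
    · exact (M i).map_zero
  have hJtend : Tendsto Jx atTop atTop := by
    rw [tendsto_atTop]
    intro J
    filter_upwards [eventually_ge_atTop (b J)] with i hi
    exact hJ2 i J hi
  refine ⟨t, fun i => ?_, ?_, ?_, ?_⟩
  · show 0 ≤ (if _ then _ else _ : ℝ)
    split
    · exact ((M i).lev_pos _).le
    · exact le_rfl
  · have h1 : Tendsto (fun i => (1 / 2 : ℝ) ^ (Jx i)) atTop (𝓝 0) :=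
      (tendsto_pow_atTop_nhds_zero_of_lt_one (by norm_num) (by norm_num)).comp hJtend
    refine squeeze_zero (fun i => ?_) (fun i => ?_) h1
    · rw [htmu]; exact mu_nonneg _ _ _
    · rw [htmu]; exact mu_le _ _ _
  · intro hs
    obtain ⟨s, hs1⟩ := summable_iff_vanishing_norm.1 hs 1 one_pos
    obtain ⟨J, hJ⟩ : ∃ J, ∀ i ∈ s, i < b J := by
      refine ⟨s.sup id + 1, fun i hi => ?_⟩
      have h1 : i ≤ s.sup id := Finset.le_sup (f := id) hi
      have := hbge (s.sup id + 1)
      omega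
    have h1 := hs1 (Finset.Ico (b J) (b (J + 1))) (by
      rw [Finset.disjoint_left]
      intro i hi1 hi2
      rw [Finset.mem_Ico] at hi1
      have := hJ i hi2
      omega)
    have h2 : ∑ i ∈ Finset.Ico (b J) (b (J + 1)), M i (t i) =
        ∑ i ∈ Finset.Ico (b J) (b (J + 1)), mu M C J i := by
      apply Finset.sum_congr rfl
      intro i hi
      rw [Finset.mem_Ico] at hi
      rw [htmu, hJ3 i J hi.1 hi.2]
    have h3 := hnx2 J (b J)
    rw [← hbs] at h3
    rw [h2, Real.norm_eq_abs] at h1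
    have := le_abs_self (∑ i ∈ Finset.Ico (b J) (b (J + 1)), mu M C J i)
    linarith
  · intro K hK
    obtain ⟨j, hj⟩ := pow_unbounded_of_one_lt K (one_lt_two)
    have hj0 : ∀ i, b (j + 1) ≤ i → M i (K * t i) ≤ C j * M i (t i) := by
      intro i hi
      have h1 := hJ2 i (j + 1) hi
      show M i (K * (if _ then _ else _)) ≤ _ * M i (if _ then _ else _)
      split
      · next h =>
        have h2 := (fst_spec h).2.2.2 j (by omega)
        unfold OrliczFunction.ratio at h2
        rw [div_le_iff₀ ((M i).M_lev_pos _)] at h2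
        refine le_trans ((M i).mono (mul_nonneg hK.le ((M i).lev_pos _).le) ?_) h2
        exact mul_le_mul_of_nonneg_right hj.le ((M i).lev_pos _).le
      · rw [mul_zero, (M i).map_zero, mul_zero]
    have ht0 : ∀ i, 0 ≤ t i := by
      intro i
      show 0 ≤ (if _ then _ else _ : ℝ)
      split
      · exact ((M i).lev_pos _).le
      · exact le_rfl
    have hterm : ∀ i, 0 ≤ M i (K * t i) / M i (t i) := fun i =>
      div_nonneg ((M i).nonneg (mul_nonneg hK.le (ht0 i))) ((M i).nonneg (ht0 i))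
    set D := ∑ i ∈ Finset.range (b (j + 1)), M i (K * t i) / M i (t i) with hD
    have hD0 : 0 ≤ D := Finset.sum_nonneg (fun i _ => hterm i)
    refine ⟨C j + D, fun i => ?_⟩
    rcases le_or_gt (b (j + 1)) i with hi | hi
    · refine (hj0 i hi).trans ?_
      apply mul_le_mul_of_nonneg_right _ ((M i).nonneg (ht0 i))
      linarith
    · rcases (ht0 i).eq_or_lt with h0 | h0
      · rw [← h0, mul_zero, (M i).map_zero, mul_zero]
      · have h3 : M i (K * t i) / M i (t i) ≤ D :=
          Finset.single_le_sum (f := fun i => M i (K * t i) / M i (t i))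
            (fun i _ => hterm i) (Finset.mem_range.2 hi)
        rw [div_le_iff₀ ((M i).pos h0)] at h3
        refine h3.trans ?_
        apply mul_le_mul_of_nonneg_right _ ((M i).nonneg (ht0 i))
        have : (0 : ℝ) ≤ C j := Nat.cast_nonneg _
        linarith

end Pool.Agent.LibMusielak
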