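import Pool.Agent.Lib_MP_b3cab1_mus.MRenorm

set_option autoImplicit false

/-!
# `h_M` is a separable Banach space, Musielak-Orlicz case
-/

open Filter Topology Set

namespace Pool.Agent.LibMusielak

open Pool.Agent.LibOrlicz (OrliczFunction)

open MusSeq

variable {M : ℕ → OrliczFunction}

lemma coord_le_norm (y : MusSeq M) (i : ℕ) : |y.coord i| ≤ (M i).lev 1 * ‖y‖ := by
  apply le_of_forall_pos_le_add
  intro ε hε
  have hl := (M i).lev_pos 1
  set r := ‖y‖ + ε / (M i).lev 1 with hr
  have hr0 : 0 < r := by positivity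
  have h1 : mod r⁻¹ y ≤ 1 := by
    apply mod_le_one_of_norm
    rw [inv_inv, hr]
    have : 0 < ε / (M i).lev 1 := by positivity
    linarith
  have h2 := (coord_le_of_mod (inv_pos.2 hr0) y i).trans h1
  have h3 : r⁻¹ * |y.coord i| ≤ (M i).lev 1 := by
    by_contra hc
    rw [not_le] at hc
    have := (M i).mono hl.le hc.le
    linarith [(M i).two_le_M_lev_one]
  rw [inv_mul_le_iff₀ hr0] at h3
  refine h3.trans (le_of_eq ?_)
  rw [hr]
  field_simp

lemma coord_tendsto_of_cauchy {x : ℕ → MusSeq M} (hx : CauchySeq x) (i : ℕ) :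
    ∃ l : ℝ, Tendsto (fun n => (x n).coord i) atTop (𝓝 l) := by
  apply cauchySeq_tendsto_of_complete
  rw [Metric.cauchySeq_iff'] at hx ⊢
  intro ε hε
  have hl := (M i).lev_pos 1
  obtain ⟨N, hN⟩ := hx (ε / (M i).lev 1) (by positivity)
  refine ⟨N, fun n hn => ?_⟩
  have h1 := hN n hn
  rw [dist_eq_norm] at h1
  rw [Real.dist_eq, ← coord_sub]
  refine (coord_le_norm _ _).trans_lt ?_
  rw [lt_div_iff₀ hl] at h1
  rwa [mul_comm]

/-- Fatou type estimate -/
lemma sum_le_of_tendsto {y : ℕ → MusSeq M} {l : ℕ → ℝ} {K : ℝ} (hK : 0 < K)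
    (hl : ∀ i, Tendsto (fun n => (y n).coord i) atTop (𝓝 (l i)))
    (hy : ∀ᶠ n in atTop, mod (2 * K) (y n) ≤ 1) (s : Finset ℕ) :
    ∑ i ∈ s, M i (K * |l i|) ≤ 1 := by
  have h1 : ∀ i, ∀ᶠ n in atTop, M i (K * |l i|) ≤ M i (2 * K * |(y n).coord i|) := by
    intro i
    by_cases h0 : l i = 0
    · refine Eventually.of_forall (fun n => ?_)
      rw [h0, abs_zero, mul_zero, (M i).map_zero]
      exact (M i).nonneg (by positivity)
    · have h2 : ∀ᶠ n in atTop, |l i| / 2 < |(y n).coord i| := by
        have := (hl i).abs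
        exact (tendsto_order.1 this).1 _ (by
          have : 0 < |l i| := abs_pos.2 h0
          linarith)
      filter_upwards [h2] with n hn
      apply (M i).mono (by positivity)
      nlinarith
  have h2 : ∀ᶠ n in atTop, ∀ i ∈ s, M i (K * |l i|) ≤ M i (2 * K * |(y n).coord i|) := by
    rw [eventually_all_finset]
    intro i _
    exact h1 i
  obtain ⟨n, hn1, hn2⟩ := (h2.and hy).exists
  calc ∑ i ∈ s, M i (K * |l i|) ≤ ∑ i ∈ s, M i (2 * K * |(y n).coord i|) :=
        Finset.sum_le_sum hn1
    _ ≤ mod (2 * K) (y n) := ((y n).summable (by positivity)).sum_le_tsum _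
        (fun i _ => (M i).nonneg (by positivity))
    _ ≤ 1 := hn2

instance : CompleteSpace (MusSeq M) := by
  apply Metric.complete_of_cauchySeq_tendsto
  intro x hx
  choose l hl using coord_tendsto_of_cauchy hx
  have hx' := hx
  rw [Metric.cauchySeq_iff] at hx'
  -- for every `K` the differences are eventually small
  have h1 : ∀ K : ℝ, 0 < K → ∃ N, ∀ n, N ≤ n → ∀ s : Finset ℕ,
      ∑ i ∈ s, M i (K * |(x n).coord i - l i|) ≤ 1 := by
    intro K hK
    obtain ⟨N, hN⟩ := hx' (2 * K)⁻¹ (by positivity)
    refine ⟨N, fun n hn s => ?_⟩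
    refine sum_le_of_tendsto (M := M) (y := fun m => x n - x m)
      (l := fun i => (x n).coord i - l i) hK (fun i => ?_) ?_ s
    · simp only [coord_sub]
      exact tendsto_const_nhds.sub (hl i)
    · filter_upwards [eventually_ge_atTop N] with m hm
      apply mod_le_one_of_norm
      have := hN n hn m hm
      rwa [dist_eq_norm] at this
  have h2 : ∀ K : ℝ, 0 < K → Summable fun i => M i (K * |l i|) := by
    intro K hK
    obtain ⟨N, hN⟩ := h1 (2 * K) (by positivity)
    have h3 : Summable fun i => M i (2 * K * |(x N).coord i - l i|) :=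
      summable_of_sum_le (fun i => (M i).nonneg (by positivity)) (hN N le_rfl)
    refine Summable.of_nonneg_of_le
      (f := fun i => (M i (2 * K * |(x N).coord i|) + M i (2 * K * |(x N).coord i - l i|)) / 2)
      (fun i => (M i).nonneg (by positivity)) (fun i => ?_)
      ((((x N).summable (by positivity)).add h3).div_const 2)
    have h4 : K * |l i| ≤ K * |(x N).coord i| + K * |(x N).coord i - l i| := by
      rw [← mul_add]
      apply mul_le_mul_of_nonneg_left _ hK.le
      have := abs_sub_abs_le_abs_sub (l i) ((x N).coord i)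
      rw [abs_sub_comm] at this
      linarith
    refine ((M i).mono (by positivity) h4).trans ?_
    have h5 := (M i).avg_le (s := K * |(x N).coord i|) (t := K * |(x N).coord i - l i|)
      (by positivity) (by positivity)
    rwa [← mul_assoc, ← mul_assoc] at h5
  refine ⟨MusSeq.mk l h2, ?_⟩
  rw [Metric.tendsto_atTop]
  intro ε hε
  obtain ⟨N, hN⟩ := h1 (2 / ε) (by positivity)
  refine ⟨N, fun n hn => ?_⟩
  rw [dist_eq_norm]
  have h3 : mod (2 / ε) (x n - MusSeq.mk l h2) ≤ 1 := by
    refine ((x n - MusSeq.mk l h2).summable (by positivity)).tsum_le_of_sum_le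
      (fun s => ?_)
    exact hN n hn s
  have h4 := norm_le_of_mod (by positivity) h3
  rw [inv_div] at h4
  linarith

/-- the truncation -/
noncomputable def trunc (x : MusSeq M) (n : ℕ) : MusSeq M :=
  ∑ i ∈ Finset.range n, x.coord i • unitVec M i

lemma coord_sum (s : Finset ℕ) (y : ℕ → MusSeq M) (k : ℕ) :
    (∑ i ∈ s, y i).coord k = ∑ i ∈ s, (y i).coord k := by
  classical
  induction s using Finset.induction with
  | empty => simp
  | insert i s hi ih => rw [Finset.sum_insert hi, Finset.sum_insert hi, coord_add, ih]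

lemma coord_trunc (x : MusSeq M) (n k : ℕ) :
    (trunc x n).coord k = if k < n then x.coord k else 0 := by
  rw [trunc, coord_sum]
  simp only [coord_smul, coord_unitVec]
  split_ifs with h
  · rw [Finset.sum_eq_single k]
    · rw [Pi.single_eq_same, mul_one]
    · intro i _ hi
      rw [Pi.single_eq_of_ne hi.symm, mul_zero]
    · intro h1
      exact absurd (Finset.mem_range.2 h) h1
  · apply Finset.sum_eq_zero
    intro i hi
    rw [Finset.mem_range] at hi
    rw [Pi.single_eq_of_ne (by omega), mul_zero]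

lemma tendsto_trunc (x : MusSeq M) : Tendsto (fun n => trunc x n) atTop (𝓝 x) := by
  rw [Metric.tendsto_atTop]
  intro ε hε
  have hK : 0 < 2 / ε := by positivity
  have h1 : Tendsto (fun n => ∑' k, M (k + n) (2 / ε * |x.coord (k + n)|)) atTop (𝓝 0) :=
    tendsto_sum_nat_add (fun i => M i (2 / ε * |x.coord i|))
  obtain ⟨N, hN⟩ := eventually_atTop.1 ((tendsto_order.1 h1).2 1 one_pos)
  refine ⟨N, fun n hn => ?_⟩
  rw [dist_eq_norm]
  have h2 : mod (2 / ε) (trunc x n - x) ≤ 1 := by
    have h3 := ((trunc x n - x).summable hK).sum_add_tsum_nat_add n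
    have h4 : ∑ i ∈ Finset.range n, M i (2 / ε * |(trunc x n - x).coord i|) = 0 := by
      apply Finset.sum_eq_zero
      intro i hi
      rw [Finset.mem_range] at hi
      rw [coord_sub, coord_trunc, if_pos hi, sub_self, abs_zero, mul_zero, (M i).map_zero]
    have h5 : ∑' k, M (k + n) (2 / ε * |(trunc x n - x).coord (k + n)|) =
        ∑' k, M (k + n) (2 / ε * |x.coord (k + n)|) := by
      apply tsum_congr
      intro k
      rw [coord_sub, coord_trunc, if_neg (by omega), zero_sub, abs_neg]
    rw [h4, h5, zero_add] at h3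
    unfold mod
    rw [← h3]
    exact (hN n hn).le
  have h4 := norm_le_of_mod hK h2
  rw [inv_div] at h4
  linarith

instance : TopologicalSpace.SeparableSpace (MusSeq M) := by
  rw [← TopologicalSpace.isSeparable_univ_iff]
  have h1 : TopologicalSpace.IsSeparable (range (unitVec M)) :=
    (countable_range _).isSeparable
  have h2 : TopologicalSpace.IsSeparable (Submodule.span ℝ (range (unitVec M)) : Set (MusSeq M)) :=
    h1.span
  refine h2.closure.mono (fun x _ => ?_)
  refine mem_closure_of_tendsto (tendsto_trunc x) (Eventually.of_forall fun n => ?_)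
  exact Submodule.sum_mem _ (fun i _ => Submodule.smul_mem _ _ (Submodule.subset_span ⟨i, rfl⟩))

end Pool.Agent.LibMusielak
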