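import Pool.Agent.Lib_MP_b3cab1_mus.Tail

set_option autoImplicit false

/-!
# Functionals built from levels, Musielak-Orlicz case
-/

open Filter Topology Set

namespace Pool.Agent.LibMusielak

open Pool.Agent.LibOrlicz (OrliczFunction Asg summable_half tsum_half sign_mul_le)

open MusSeq

variable (M : ℕ → OrliczFunction)

/-- efficiency -/
noncomputable def eff (j i n : ℕ) : ℝ := 1 / √(gr M j i n)

variable {M}

lemma eff_pos (j i n : ℕ) : 0 < eff M j i n := by
  have := gr_pos (M := M) j i n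
  unfold eff
  positivity

lemma eff_le_one (j i n : ℕ) : eff M j i n ≤ 1 := by
  unfold eff
  rw [div_le_one (Real.sqrt_pos.2 (gr_pos j i n))]
  exact Real.one_le_sqrt.2 (one_le_gr j i n)

lemma le_eff {j i n : ℕ} {C : ℝ} (h : gr M j i n ≤ C) : 1 / √C ≤ eff M j i n := by
  unfold eff
  exact one_div_le_one_div_of_le (Real.sqrt_pos.2 (gr_pos j i n)) (Real.sqrt_le_sqrt h)

lemma eff_le {j i n : ℕ} {C : ℝ} (hC : 0 < C) (h : C ≤ gr M j i n) : eff M j i n ≤ 1 / √C := by
  unfold eff
  exact one_div_le_one_div_of_le (Real.sqrt_pos.2 hC) (Real.sqrt_le_sqrt h)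

/-! ### assignments -/

/-- `A` uses at each coordinate `i` a level which is at most `Lx M i` -/
def Adm (M : ℕ → OrliczFunction) (A : Asg) : Prop := ∀ i, (A i).natAbs ≤ Lx M i

lemma Adm.filter {A : Asg} (h : Adm M A) (p : ℕ → Prop) [DecidablePred p] :
    Adm M (A.filter p) := by
  intro i
  by_cases hp : p i
  · rw [Finsupp.filter_apply_pos _ _ hp]; exact h i
  · rw [Finsupp.filter_apply_neg _ _ hp]; simp

lemma Adm.neg {A : Asg} (h : Adm M A) : Adm M (-A) := by
  intro i
  rw [Finsupp.neg_apply, Int.natAbs_neg]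
  exact h i

lemma adm_zero : Adm M 0 := by
  intro i
  simp

/-- `p`-th term of the weight -/
noncomputable def cj (M : ℕ → OrliczFunction) (j : ℕ) (A : Asg) : ℝ :=
  (insert (1 : ℝ) (A.support.image (fun i => eff M j i (A i).natAbs))).min'
    (Finset.insert_nonempty _ _)

lemma cj_le_one (j : ℕ) (A : Asg) : cj M j A ≤ 1 :=
  Finset.min'_le _ _ (Finset.mem_insert_self _ _)

lemma cj_le_eff (j : ℕ) (A : Asg) {i : ℕ} (hi : i ∈ A.support) :
    cj M j A ≤ eff M j i (A i).natAbs :=
  Finset.min'_le _ _ (Finset.mem_insert_of_mem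
    (Finset.mem_image_of_mem (fun i => eff M j i (A i).natAbs) hi))

lemma le_cj {j : ℕ} {A : Asg} {e : ℝ} (h1 : e ≤ 1)
    (h : ∀ i ∈ A.support, e ≤ eff M j i (A i).natAbs) : e ≤ cj M j A := by
  apply Finset.le_min'
  intro y hy
  rcases Finset.mem_insert.1 hy with h2 | h2
  · rw [h2]; exact h1
  · obtain ⟨i, hi, rfl⟩ := Finset.mem_image.1 h2
    exact h i hi

lemma cj_nonneg (j : ℕ) (A : Asg) : 0 ≤ cj M j A :=
  le_cj zero_le_one (fun _ _ => (eff_pos _ _ _).le)

lemma cj_filter (j : ℕ) (A : Asg) (p : ℕ → Prop) [DecidablePred p] :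
    cj M j A ≤ cj M j (A.filter p) := by
  apply le_cj (cj_le_one j A)
  intro i hi
  rw [Finsupp.support_filter, Finset.mem_filter] at hi
  rw [Finsupp.filter_apply_pos _ _ hi.2]
  exact cj_le_eff j A hi.1

/-- the weight -/
noncomputable def wt (M : ℕ → OrliczFunction) (A : Asg) : ℝ :=
  1 + ∑' j : ℕ, (1 / 2) ^ (j + 1) * cj M j A

lemma summable_wt (A : Asg) : Summable fun j : ℕ => (1 / 2 : ℝ) ^ (j + 1) * cj M j A :=
  Summable.of_nonneg_of_le (fun j => mul_nonneg (by positivity) (cj_nonneg j A))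
    (fun j => mul_le_of_le_one_right (by positivity) (cj_le_one j A)) summable_half

lemma one_le_wt (A : Asg) : 1 ≤ wt M A := by
  have : 0 ≤ ∑' j : ℕ, (1 / 2 : ℝ) ^ (j + 1) * cj M j A :=
    tsum_nonneg (fun j => mul_nonneg (by positivity) (cj_nonneg j A))
  unfold wt
  linarith

lemma wt_le_two (A : Asg) : wt M A ≤ 2 := by
  have h : ∑' j : ℕ, (1 / 2 : ℝ) ^ (j + 1) * cj M j A ≤ ∑' j : ℕ, (1 / 2 : ℝ) ^ (j + 1) :=
    (summable_wt A).tsum_le_tsum
      (fun j => mul_le_of_le_one_right (by positivity) (cj_le_one j A)) summable_half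
  rw [tsum_half] at h
  unfold wt
  linarith

/-- Dropping coordinates increases the weight. -/
lemma wt_filter (A : Asg) (p : ℕ → Prop) [DecidablePred p] (j : ℕ) {d : ℝ}
    (h : cj M j A + d ≤ cj M j (A.filter p)) :
    wt M A + (1 / 2) ^ (j + 1) * d ≤ wt M (A.filter p) := by
  have h1 : (1 / 2 : ℝ) ^ (j + 1) * (cj M j (A.filter p) - cj M j A) ≤
      ∑' i : ℕ, (1 / 2 : ℝ) ^ (i + 1) * (cj M i (A.filter p) - cj M i A) := by
    have hs : Summable fun i : ℕ => (1 / 2 : ℝ) ^ (i + 1) * (cj M i (A.filter p) - cj M i A) := by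
      simp_rw [mul_sub]
      exact (summable_wt _).sub (summable_wt _)
    exact hs.le_tsum j (fun i _ => mul_nonneg (by positivity) (sub_nonneg.2 (cj_filter i A p)))
  have h2 : ∑' i : ℕ, (1 / 2 : ℝ) ^ (i + 1) * (cj M i (A.filter p) - cj M i A) =
      wt M (A.filter p) - wt M A := by
    simp_rw [mul_sub]
    rw [(summable_wt _).tsum_sub (summable_wt _)]
    unfold wt
    ring
  have h3 : (1 / 2 : ℝ) ^ (j + 1) * d ≤
      (1 / 2 : ℝ) ^ (j + 1) * (cj M j (A.filter p) - cj M j A) :=
    mul_le_mul_of_nonneg_left (by linarith) (by positivity)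
  linarith

lemma wt_filter' (A : Asg) (p : ℕ → Prop) [DecidablePred p] : wt M A ≤ wt M (A.filter p) := by
  have := wt_filter (M := M) A p 0 (d := 0) (by rw [add_zero]; exact cj_filter 0 A p)
  simpa using this

/-- linear part -/
noncomputable def lin (A : Asg) (x : MusSeq M) : ℝ :=
  ∑ i ∈ A.support, (M i).slope (A i).natAbs * ((A i).sign * x.coord i)

/-- cost -/
noncomputable def cost (M : ℕ → OrliczFunction) (A : Asg) : ℝ :=
  ∑ i ∈ A.support, M i ((M i).lev (A i).natAbs)

lemma cost_nonneg (A : Asg) : 0 ≤ cost M A := Finset.sum_nonneg (fun i _ => ((M i).M_lev_pos _).le)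

lemma lin_sub_cost (A : Asg) (x : MusSeq M) : lin A x - cost M A =
    ∑ i ∈ A.support, ((M i).slope (A i).natAbs * ((A i).sign * x.coord i) -
      M i ((M i).lev (A i).natAbs)) := by
  unfold lin cost
  rw [Finset.sum_sub_distrib]

lemma term_le (P : OrliczFunction) (k : ℤ) (v : ℝ) :
    P.slope k.natAbs * (k.sign * v) - P (P.lev k.natAbs) ≤
    P.slope k.natAbs * |v| - P (P.lev k.natAbs) := by
  have := mul_le_mul_of_nonneg_left (sign_mul_le k v) (P.slope_pos k.natAbs).le
  linarith

lemma value_le (A : Asg) (x : MusSeq M) : lin A x - cost M A ≤ mod 2 x := by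
  rw [lin_sub_cost]
  refine le_trans (Finset.sum_le_sum (fun i _ => (term_le (M i) _ _).trans
    ((M i).piece_le _ (abs_nonneg _)))) ?_
  exact (x.summable two_pos).sum_le_tsum _ (fun i _ => (M i).nonneg (by positivity))

lemma value_filter_add (A : Asg) (x : MusSeq M) (p : ℕ → Prop) [DecidablePred p] :
    lin A x - cost M A = (lin (A.filter p) x - cost M (A.filter p)) +
      ∑ i ∈ A.support.filter (fun i => ¬ p i), ((M i).slope (A i).natAbs *
        ((A i).sign * x.coord i) - M i ((M i).lev (A i).natAbs)) := by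
  rw [lin_sub_cost, lin_sub_cost, ← Finset.sum_filter_add_sum_filter_not A.support p]
  congr 1
  rw [Finsupp.support_filter]
  apply Finset.sum_congr rfl
  intro i hi
  rw [Finset.mem_filter] at hi
  rw [Finsupp.filter_apply_pos _ _ hi.2]

/-- the loss of the `j`-th growth function -/
noncomputable def loss (j : ℕ) (x : MusSeq M) : ℝ :=
  match j with
  | 0 => 2 * ‖x‖
  | j + 1 => mod (2 ^ (j + 1)) x

open Classical in
/-- dropping the coordinates with growth larger than `C` -/
lemma value_filter_gr (A : Asg) (x : MusSeq M) (j : ℕ) {C : ℝ} (hC : 1 ≤ C) :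
    lin A x - cost M A ≤
      (lin (A.filter (fun i => gr M j i (A i).natAbs ≤ C)) x -
        cost M (A.filter (fun i => gr M j i (A i).natAbs ≤ C))) + loss j x / C := by
  have hC0 : 0 < C := by linarith
  rw [value_filter_add A x (fun i => gr M j i (A i).natAbs ≤ C)]
  apply add_le_add_right
  cases j with
  | zero =>
    have h1 := loss_rr (M := M) hC (A.support.filter (fun i => ¬ gr M 0 i (A i).natAbs ≤ C))
      (fun i => (A i).natAbs) (fun i hi => by
        rw [Finset.mem_filter, not_le] at hi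
        exact hi.2) x
    refine le_trans (Finset.sum_le_sum (fun i _ => ?_)) h1
    have h2 := term_le (M i) (A i) (x.coord i)
    have h3 := (M i).M_lev_pos (A i).natAbs
    linarith
  | succ j =>
    have h1 : ∀ i ∈ A.support.filter (fun i => ¬ gr M (j + 1) i (A i).natAbs ≤ C),
        (M i).slope (A i).natAbs * ((A i).sign * x.coord i) - M i ((M i).lev (A i).natAbs) ≤
          M i (2 ^ (j + 1) * |x.coord i|) / C := by
      intro i hi
      rw [Finset.mem_filter, not_le] at hi
      have hi2 : C < (M i).ratio j (A i).natAbs := hi.2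
      refine (term_le (M i) _ _).trans ?_
      rw [le_div_iff₀ hC0]
      have h2 := (M i).ratio_mul_piece_le j (A i).natAbs (abs_nonneg (x.coord i))
      rcases le_total ((M i).slope (A i).natAbs * |x.coord i| - M i ((M i).lev (A i).natAbs)) 0
        with h3 | h3
      · have h4 := mul_nonpos_of_nonpos_of_nonneg h3 hC0.le
        exact h4.trans ((M i).nonneg (by positivity))
      · refine le_trans ?_ h2
        rw [mul_comm]
        exact mul_le_mul_of_nonneg_right hi2.le h3
    refine (Finset.sum_le_sum h1).trans ?_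
    rw [← Finset.sum_div]
    apply div_le_div_of_nonneg_right _ hC0.le
    exact (x.summable (by positivity)).sum_le_tsum _ (fun i _ => (M i).nonneg (by positivity))

/-! ### the functionals and the norm -/

/-- the functional of an assignment -/
noncomputable def fn (A : Asg) (x : MusSeq M) : ℝ := wt M A * lin A x / (1 + wt M A * cost M A)

lemma den_pos (A : Asg) : 0 < 1 + wt M A * cost M A := by
  have h1 := one_le_wt (M := M) A
  have h2 := cost_nonneg (M := M) A
  positivity

lemma lin_add (A : Asg) (x y : MusSeq M) : lin A (x + y) = lin A x + lin A y := by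
  unfold lin
  rw [← Finset.sum_add_distrib]
  apply Finset.sum_congr rfl
  intro i _
  rw [coord_add]
  ring

lemma lin_smul (A : Asg) (c : ℝ) (x : MusSeq M) : lin A (c • x) = c * lin A x := by
  unfold lin
  rw [Finset.mul_sum]
  apply Finset.sum_congr rfl
  intro i _
  rw [coord_smul]
  ring

lemma lin_neg (A : Asg) (x : MusSeq M) : lin (-A) x = - lin A x := by
  unfold lin
  rw [Finsupp.support_neg, ← Finset.sum_neg_distrib]
  apply Finset.sum_congr rfl
  intro i _
  rw [Finsupp.neg_apply, Int.natAbs_neg, Int.sign_neg]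
  push_cast
  ring

lemma cost_neg (A : Asg) : cost M (-A) = cost M A := by
  unfold cost
  rw [Finsupp.support_neg]
  apply Finset.sum_congr rfl
  intro i _
  rw [Finsupp.neg_apply, Int.natAbs_neg]

lemma cj_neg (j : ℕ) (A : Asg) : cj M j (-A) = cj M j A := by
  unfold cj
  congr 2
  rw [Finsupp.support_neg]
  apply Finset.image_congr
  intro i _
  show eff M j i ((-A) i).natAbs = eff M j i (A i).natAbs
  rw [Finsupp.neg_apply, Int.natAbs_neg]

lemma wt_neg (A : Asg) : wt M (-A) = wt M A := by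
  unfold wt
  congr 1
  exact tsum_congr (fun j => by rw [cj_neg])

lemma fn_neg (A : Asg) (x : MusSeq M) : fn (-A) x = - fn A x := by
  unfold fn
  rw [lin_neg, wt_neg, cost_neg]
  ring

lemma fn_add (A : Asg) (x y : MusSeq M) : fn A (x + y) = fn A x + fn A y := by
  unfold fn
  rw [lin_add]
  ring

lemma fn_smul (A : Asg) (c : ℝ) (x : MusSeq M) : fn A (c • x) = c * fn A x := by
  unfold fn
  rw [lin_smul]
  ring

lemma fn_le_iff (A : Asg) (x : MusSeq M) (s : ℝ) : fn A x ≤ s ↔
    wt M A * lin A x ≤ s * (1 + wt M A * cost M A) := by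
  unfold fn
  rw [div_le_iff₀ (den_pos A)]

lemma fn_le_one_iff (A : Asg) (x : MusSeq M) : fn A x ≤ 1 ↔
    wt M A * (lin A x - cost M A) ≤ 1 := by
  rw [fn_le_iff, one_mul, mul_sub]
  constructor <;> intro h <;> linarith

/-- `fn A` is bounded by `4 ‖x‖`. -/
lemma fn_le_norm (A : Asg) (x : MusSeq M) : fn A x ≤ 4 * ‖x‖ := by
  apply le_of_forall_pos_le_add
  intro ε hε
  set r := 4 * ‖x‖ + ε with hr
  have hr0 : 0 < r := by positivity
  have h1 : fn A (r⁻¹ • x) ≤ 1 := by
    rw [fn_le_one_iff]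
    have h2 : mod 4 (r⁻¹ • x) ≤ 1 := by
      apply mod_le_one_of_norm
      rw [norm_smul, Real.norm_eq_abs, abs_of_pos (inv_pos.2 hr0), inv_mul_lt_iff₀ hr0, hr]
      linarith
    have h3 := mod_mul_le (K := 4) (l := 1 / 2) (by norm_num) (by norm_num) (by norm_num)
      (r⁻¹ • x)
    have e : (1 / 2 : ℝ) * 4 = 2 := by norm_num
    rw [e] at h3
    have h4 := value_le A (r⁻¹ • x)
    have h5 : lin A (r⁻¹ • x) - cost M A ≤ 1 / 2 := by linarith
    calc wt M A * (lin A (r⁻¹ • x) - cost M A) ≤ wt M A * (1 / 2) :=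
          mul_le_mul_of_nonneg_left h5 (by linarith [one_le_wt (M := M) A])
      _ ≤ 1 := by linarith [wt_le_two (M := M) A]
  rw [fn_smul, inv_mul_le_iff₀ hr0, mul_one] at h1
  exact h1

lemma abs_fn_le (A : Asg) (x : MusSeq M) : |fn A x| ≤ 4 * ‖x‖ := by
  rw [abs_le]
  refine ⟨?_, fn_le_norm A x⟩
  have := fn_le_norm (-A) x
  rw [fn_neg] at this
  linarith

/-- the functional as a continuous linear map -/
noncomputable def fnL (M : ℕ → OrliczFunction) (A : Asg) : MusSeq M →L[ℝ] ℝ :=
  LinearMap.mkContinuous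
    { toFun := fn A
      map_add' := fn_add A
      map_smul' := fun c x => by rw [fn_smul]; rfl } 4
    (fun x => by rw [Real.norm_eq_abs]; exact abs_fn_le A x)

@[simp] lemma fnL_apply (A : Asg) (x : MusSeq M) : fnL M A x = fn A x := rfl

/-- the admissible assignments -/
abbrev AdmAsg (M : ℕ → OrliczFunction) := {A : Asg // Adm M A}

instance : Nonempty (AdmAsg M) := ⟨⟨0, adm_zero⟩⟩

/-- the new norm -/
noncomputable def nn (x : MusSeq M) : ℝ := ⨆ A : AdmAsg M, fn A.1 x

lemma bddAbove_fn (x : MusSeq M) : BddAbove (range fun A : AdmAsg M => fn A.1 x) :=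
  ⟨4 * ‖x‖, by rintro _ ⟨A, rfl⟩; exact fn_le_norm A.1 x⟩

lemma fn_le_nn {A : Asg} (hA : Adm M A) (x : MusSeq M) : fn A x ≤ nn x :=
  le_ciSup (bddAbove_fn x) ⟨A, hA⟩

lemma nn_le {x : MusSeq M} {s : ℝ} (h : ∀ A, Adm M A → fn A x ≤ s) : nn x ≤ s :=
  ciSup_le (fun A => h A.1 A.2)

lemma nn_le_norm (x : MusSeq M) : nn x ≤ 4 * ‖x‖ := nn_le (fun A _ => fn_le_norm A x)

lemma nn_nonneg (x : MusSeq M) : 0 ≤ nn x := by
  have h := fn_le_nn (M := M) adm_zero x
  have e : fn (0 : Asg) x = 0 := by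
    unfold fn lin
    simp
  rwa [e] at h

lemma nn_add_le (x y : MusSeq M) : nn (x + y) ≤ nn x + nn y :=
  nn_le (fun A hA => by rw [fn_add]; exact add_le_add (fn_le_nn hA x) (fn_le_nn hA y))

lemma nn_neg (x : MusSeq M) : nn (-x) = nn x := by
  have key : ∀ y : MusSeq M, nn (-y) ≤ nn y := fun y => nn_le (fun A hA => by
    have h := fn_le_nn hA.neg y
    have e : -y = (-1 : ℝ) • y := by simp
    rw [fn_neg] at h
    rw [e, fn_smul]
    linarith)
  apply le_antisymm (key x)
  have := key (-x)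
  rwa [neg_neg] at this

lemma nn_smul_nonneg {c : ℝ} (hc : 0 ≤ c) (x : MusSeq M) : nn (c • x) = c * nn x := by
  have key : ∀ {c : ℝ} (_ : 0 ≤ c) (x : MusSeq M), nn (c • x) ≤ c * nn x := fun hc x =>
    nn_le (fun A hA => by rw [fn_smul]; exact mul_le_mul_of_nonneg_left (fn_le_nn hA x) hc)
  apply le_antisymm (key hc x)
  rcases hc.eq_or_lt with h | h
  · rw [← h, zero_mul]; exact nn_nonneg _
  · have h1 := key (inv_nonneg.2 hc) (c • x)
    rw [smul_smul, inv_mul_cancel₀ h.ne', one_smul] at h1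
    have h2 := mul_le_mul_of_nonneg_left h1 hc
    rwa [← mul_assoc, mul_inv_cancel₀ h.ne', one_mul] at h2

lemma nn_smul (c : ℝ) (x : MusSeq M) : nn (c • x) = |c| * nn x := by
  rcases le_total 0 c with h | h
  · rw [nn_smul_nonneg h, abs_of_nonneg h]
  · have h1 := nn_smul_nonneg (neg_nonneg.2 h) x
    rw [neg_smul, nn_neg] at h1
    rw [h1, abs_of_nonpos h]

end Pool.Agent.LibMusielak
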