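import Pool.Agent.Lib_MP_b3cab1_an.Local
import Pool.Agent.Lib_MP_b3cab1_mus.MPieces

set_option autoImplicit false

/-!
# Lower bound and local finiteness of the new norm, Musielak-Orlicz case
-/

open Filter Topology Set

namespace Pool.Agent.LibMusielak

open Pool.Agent.LibOrlicz (OrliczFunction Asg sg sg_mul sign_sg_mul natAbs_sg_mul)

open MusSeq

variable {M : ℕ → OrliczFunction}

/-! ### lower bound -/

lemma value_le_of_fn {x : MusSeq M} (h : ∀ A, Adm M A → fn A x ≤ 1) {A : Asg} (hA : Adm M A) :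
    wt M A * (lin A x - cost M A) ≤ 1 := (fn_le_one_iff A x).1 (h A hA)

lemma value_le_one_of_fn {x : MusSeq M} (h : ∀ A, Adm M A → fn A x ≤ 1) {A : Asg}
    (hA : Adm M A) : lin A x - cost M A ≤ 1 := by
  have h1 := value_le_of_fn h hA
  rcases le_total (lin A x - cost M A) 0 with h2 | h2
  · linarith
  · have h3 := mul_le_mul_of_nonneg_right (one_le_wt (M := M) A) h2
    linarith

lemma coord_lt_of_fn {x : MusSeq M} (h : ∀ A, Adm M A → fn A x ≤ 1) (i : ℕ) :
    |x.coord i| < (M i).lev 0 := by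
  classical
  by_contra hcon
  rw [not_lt] at hcon
  have h1 : (M i).lev 1 ≤ |x.coord i| := ((M i).lev_antitone (Nat.zero_le 1)).trans hcon
  have hadm : Adm M (Finsupp.single i (sg (x.coord i) * ((1 : ℕ) : ℤ))) := by
    intro k
    by_cases hk : k = i
    · rw [hk, Finsupp.single_eq_same, natAbs_sg_mul]
      exact one_le_Lx M i
    · rw [Finsupp.single_eq_of_ne hk]
      simp
  have h2 := value_le_one_of_fn h hadm
  have hne : sg (x.coord i) * ((1 : ℕ) : ℤ) ≠ 0 := by
    intro h0
    have := natAbs_sg_mul (x.coord i) 1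
    rw [h0] at this
    simp at this
  rw [lin_sub_cost, Finsupp.support_single_ne_zero _ hne, Finset.sum_singleton,
    Finsupp.single_eq_same, natAbs_sg_mul, sign_sg_mul _ le_rfl, sg_mul] at h2
  have h3 := (M i).le_piece h1
  have h4 := (M i).two_le_M_lev_one
  linarith

lemma sum_half_le (I : Finset ℕ) : ∑ i ∈ I, (1 / 2 : ℝ) ^ (i + 2) ≤ 1 / 2 := by
  have h1 : Summable fun i : ℕ => (1 / 2 : ℝ) ^ (i + 2) :=
    (summable_nat_add_iff 2).2 (summable_geometric_of_lt_one (by norm_num) (by norm_num))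
  refine (h1.sum_le_tsum I (fun i _ => by positivity)).trans (le_of_eq ?_)
  simp_rw [pow_add]
  rw [tsum_mul_right, tsum_geometric_of_lt_one (by norm_num) (by norm_num)]
  norm_num

lemma mod_half_le {x : MusSeq M} (h : ∀ A, Adm M A → fn A x ≤ 1) : mod (1 / 2) x ≤ 3 / 2 := by
  classical
  have hlev : ∀ i, x.coord i ≠ 0 → ∃ n, 1 ≤ n ∧ (M i).lev n ≤ |x.coord i| ∧
      |x.coord i| < 2 * (M i).lev n := fun i hi =>
    (M i).exists_lev (abs_pos.2 hi) (coord_lt_of_fn h i)
  choose! n hn1 hn2 hn3 using hlev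
  unfold mod
  apply (x.summable (by norm_num)).tsum_le_of_sum_le
  intro I
  set A : Asg := Finsupp.onFinset I
    (fun i => if i ∈ I ∧ x.coord i ≠ 0 ∧ n i ≤ Lx M i then sg (x.coord i) * (n i : ℤ) else 0)
    (fun i hi => by
      by_contra hcon
      apply hi
      rw [if_neg (fun h => hcon h.1)]) with hA
  have hAi : ∀ i, A i = if i ∈ I ∧ x.coord i ≠ 0 ∧ n i ≤ Lx M i then
      sg (x.coord i) * (n i : ℤ) else 0 := fun i => rfl
  have hadm : Adm M A := by
    intro i
    rw [hAi]
    split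
    · next h1 => rw [natAbs_sg_mul]; exact h1.2.2
    · simp
  have hsupp : A.support = I.filter (fun i => x.coord i ≠ 0 ∧ n i ≤ Lx M i) := by
    ext i
    rw [Finsupp.mem_support_iff, hAi, Finset.mem_filter]
    constructor
    · intro h1
      by_contra h2
      exact h1 (if_neg h2)
    · intro h1
      rw [if_pos h1]
      intro h0
      have := natAbs_sg_mul (x.coord i) (n i)
      rw [h0] at this
      have h3 := hn1 i h1.2.1
      simp at this
      omega
  have h1 := value_le_one_of_fn h hadm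
  rw [lin_sub_cost, hsupp] at h1
  have h2 : ∑ i ∈ I, M i (1 / 2 * |x.coord i|) =
      ∑ i ∈ I.filter (fun i => x.coord i ≠ 0 ∧ n i ≤ Lx M i), M i (1 / 2 * |x.coord i|) +
      ∑ i ∈ I.filter (fun i => ¬ (x.coord i ≠ 0 ∧ n i ≤ Lx M i)), M i (1 / 2 * |x.coord i|) :=
    (Finset.sum_filter_add_sum_filter_not _ _ _).symm
  rw [h2]
  have h3 : ∑ i ∈ I.filter (fun i => x.coord i ≠ 0 ∧ n i ≤ Lx M i),
      M i (1 / 2 * |x.coord i|) ≤ 1 := by
    refine le_trans (Finset.sum_le_sum ?_) h1
    intro i hi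
    rw [Finset.mem_filter] at hi
    rw [hAi, if_pos hi, natAbs_sg_mul, sign_sg_mul _ (hn1 i hi.2.1), sg_mul]
    refine le_trans ((M i).mono (by positivity) ?_) ((M i).le_piece (hn2 i hi.2.1))
    linarith [hn3 i hi.2.1]
  have h4 : ∑ i ∈ I.filter (fun i => ¬ (x.coord i ≠ 0 ∧ n i ≤ Lx M i)),
      M i (1 / 2 * |x.coord i|) ≤ 1 / 2 := by
    refine le_trans (Finset.sum_le_sum (g := fun i => (1 / 2 : ℝ) ^ (i + 2)) ?_)
      (sum_half_le _)
    intro i hi
    rw [Finset.mem_filter] at hi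
    by_cases h0 : x.coord i = 0
    · rw [h0, abs_zero, mul_zero, (M i).map_zero]
      positivity
    · have h5 : Lx M i < n i := by
        by_contra hc
        exact hi.2 ⟨h0, not_lt.1 hc⟩
      refine le_trans ((M i).mono (by positivity) ?_) (M_Lx_le M i)
      have h6 := (M i).lev_antitone h5.le
      linarith [hn3 i h0]
  linarith

lemma norm_le_four {x : MusSeq M} (h : ∀ A, Adm M A → fn A x ≤ 1) : ‖x‖ ≤ 4 := by
  have h1 := mod_mul_le (K := 1 / 2) (l := 1 / 2) (by norm_num) (by norm_num) (by norm_num) x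
  have h2 := mod_half_le h
  have e : (1 / 2 : ℝ) * (1 / 2) = 1 / 4 := by norm_num
  rw [e] at h1
  have := norm_le_of_mod (x := x) (K := 1 / 4) (by norm_num) (by linarith)
  norm_num at this
  exact this

lemma norm_le_nn (x : MusSeq M) : ‖x‖ ≤ 4 * nn x := by
  apply le_of_forall_pos_le_add
  intro ε hε
  set s := nn x + ε / 4 with hs
  have hs0 : 0 < s := by linarith [nn_nonneg x]
  have h1 : ‖s⁻¹ • x‖ ≤ 4 := by
    apply norm_le_four
    intro A hA
    rw [fn_smul, inv_mul_le_iff₀ hs0, mul_one, hs]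
    linarith [fn_le_nn hA x]
  rw [norm_smul, Real.norm_eq_abs, abs_of_pos (inv_pos.2 hs0), inv_mul_le_iff₀ hs0] at h1
  linarith

lemma nn_pos {x : MusSeq M} (h : x ≠ 0) : 0 < nn x := by
  have h1 := norm_pos_iff.2 h
  have h2 := norm_le_nn x
  linarith

/-! ### near optimal assignments -/

/-- the value of a near optimal assignment -/
lemma near_value {y : MusSeq M} {A : Asg} {e b : ℝ} (he : 0 ≤ e) (he4 : e ≤ 1 / 4)
    (hb : mod 4 y ≤ b) (hA : 1 - e ≤ fn A y) :
    1 - e * (1 + 4 * b) ≤ wt M A * (lin A y - cost M A) := by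
  have hw1 := one_le_wt (M := M) A
  have hw2 := wt_le_two (M := M) A
  have hc0 := cost_nonneg (M := M) A
  have hb0 : 0 ≤ b := (mod_nonneg (by norm_num) y).trans hb
  have h1 : (1 - e) * (1 + wt M A * cost M A) ≤ wt M A * lin A y := by
    unfold fn at hA
    rwa [le_div_iff₀ (den_pos A)] at hA
  have h2 := value_le A ((2 : ℝ) • y)
  rw [mod_smul, lin_smul] at h2
  have e2 : (2 : ℝ) * |2| = 4 := by norm_num
  rw [e2] at h2
  have h3 : wt M A * (2 * lin A y - cost M A) ≤ 2 * b := by
    calc wt M A * (2 * lin A y - cost M A) ≤ wt M A * b :=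
          mul_le_mul_of_nonneg_left (h2.trans hb) (by linarith)
      _ ≤ 2 * b := mul_le_mul_of_nonneg_right hw2 hb0
  set c := wt M A * cost M A with hc
  have hc1 : 0 ≤ c := by positivity
  have h4 : wt M A * (2 * lin A y - cost M A) = 2 * (wt M A * lin A y) - c := by rw [hc]; ring
  have h5 : wt M A * (lin A y - cost M A) = wt M A * lin A y - c := by rw [hc]; ring
  rw [h4] at h3
  rw [h5]
  have h6 : e * c ≤ 1 / 4 * c := mul_le_mul_of_nonneg_right he4 hc1
  have h7 : c ≤ 4 * b := by nlinarith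
  have h8 : e * c ≤ e * (4 * b) := mul_le_mul_of_nonneg_left h7 he
  nlinarith

/-- near optimal assignments do not use inefficient levels -/
lemma level_bound {y : MusSeq M} (hy : ∀ B, Adm M B → fn B y ≤ 1) {A : Asg} (hAdm : Adm M A)
    {e1 : ℝ} (he1 : e1 ≤ 1 / 2) (hA : 1 - e1 ≤ wt M A * (lin A y - cost M A)) {j : ℕ} {S b : ℝ}
    (hb0 : 0 ≤ b) (hb : loss j y ≤ b) (hS1 : 1 ≤ S) (hS : 48 * 2 ^ (j + 1) * b ≤ S)
    (he : e1 < (1 / 2) ^ (j + 1) / (16 * S)) {i : ℕ} (hi : i ∈ A.support) :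
    gr M j i (A i).natAbs < 4 * S ^ 2 := by
  classical
  by_contra hcon
  rw [not_lt] at hcon
  have hS0 : 0 < S := by linarith
  have hsq : √(S ^ 2) = S := Real.sqrt_sq hS0.le
  have hsq4 : √(4 * S ^ 2) = 2 * S := by
    have : 4 * S ^ 2 = (2 * S) ^ 2 := by ring
    rw [this, Real.sqrt_sq (by positivity)]
  set B := A.filter (fun i => gr M j i (A i).natAbs ≤ S ^ 2) with hB
  have hBadm : Adm M B := hAdm.filter _
  have h1 : cj M j A ≤ 1 / (2 * S) := by
    refine (cj_le_eff j A hi).trans ?_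
    have := eff_le (by positivity) hcon
    rwa [hsq4] at this
  have h2 : 1 / S ≤ cj M j B := by
    apply le_cj
    · rw [div_le_one hS0]; exact hS1
    · intro i' hi'
      rw [hB, Finsupp.support_filter, Finset.mem_filter] at hi'
      rw [hB, Finsupp.filter_apply_pos (fun i => gr M j i (A i).natAbs ≤ S ^ 2) A hi'.2]
      have := le_eff hi'.2
      rwa [hsq] at this
  have h3 := wt_filter (M := M) A (fun i => gr M j i (A i).natAbs ≤ S ^ 2) j
    (d := 1 / (2 * S)) (by
      rw [← hB]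
      have e : 1 / S = 1 / (2 * S) + 1 / (2 * S) := by field_simp; norm_num
      linarith)
  rw [← hB] at h3
  have h4 := value_filter_gr A y j (C := S ^ 2) (by nlinarith)
  have hBc : A.filter (fun i => gr M j i (A i).natAbs ≤ S ^ 2) = B := rfl
  have h4' : lin A y - cost M A ≤ (lin B y - cost M B) + loss j y / S ^ 2 := by
    convert h4 using 4
  set d : ℝ := (1 / 2) ^ (j + 1) * (1 / (2 * S)) with hd
  have hd0 : 0 < d := by positivity
  have hd8 : (1 / 2 : ℝ) ^ (j + 1) / (16 * S) = d / 8 := by rw [hd]; field_simp; norm_num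
  rw [hd8] at he
  set QA := lin A y - cost M A with hQA
  set QB := lin B y - cost M B with hQB
  have hbS : 3 * (b / S ^ 2) ≤ d / 8 := by
    have e1 : d / 8 = S / (16 * 2 ^ (j + 1)) / S ^ 2 := by
      rw [hd, one_div, inv_pow]
      field_simp
      norm_num
    rw [e1, ← mul_div_assoc]
    apply div_le_div_of_nonneg_right _ (by positivity)
    rw [le_div_iff₀ (by positivity)]
    linarith
  have hloss : loss j y / S ^ 2 ≤ b / S ^ 2 :=
    div_le_div_of_nonneg_right hb (by positivity)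
  have hw1 := one_le_wt (M := M) A
  have hw2 := wt_le_two (M := M) A
  have hwB := wt_le_two (M := M) B
  have hd1 : d ≤ 1 := by linarith
  have hQA4 : 1 / 4 ≤ QA := by
    by_contra hc
    rw [not_le] at hc
    rcases le_total QA 0 with h0 | h0
    · have := mul_nonpos_of_nonneg_of_nonpos (by linarith : (0:ℝ) ≤ wt M A) h0
      linarith
    · have := mul_le_mul_of_nonneg_right hw2 h0
      linarith
  have hbS0 : 0 ≤ b / S ^ 2 := by positivity
  have hQB1 : QA - b / S ^ 2 ≤ QB := by linarith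
  have hQpos : 0 ≤ QA - b / S ^ 2 := by linarith
  have h5 : (wt M A + d) * (QA - b / S ^ 2) ≤ wt M B * QB :=
    mul_le_mul h3 hQB1 hQpos (by linarith)
  have h6 := value_le_of_fn hy hBadm
  have h7 : (wt M A + d) * (QA - b / S ^ 2) =
      wt M A * QA + d * QA - (wt M A + d) * (b / S ^ 2) := by ring
  have h8 : (wt M A + d) * (b / S ^ 2) ≤ 3 * (b / S ^ 2) :=
    mul_le_mul_of_nonneg_right (by linarith) hbS0
  have h9 : d * (1 / 4) ≤ d * QA := mul_le_mul_of_nonneg_left hQA4 hd0.le
  linarith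

/-- near optimal assignments do not use small coordinates -/
lemma coord_bound {y : MusSeq M} (hy : ∀ B, Adm M B → fn B y ≤ 1) {A : Asg} (hAdm : Adm M A)
    {e1 : ℝ} (he1 : e1 ≤ 1 / 2) (hA : 1 - e1 ≤ wt M A * (lin A y - cost M A)) {i : ℕ}
    (he : e1 < M i ((M i).lev (A i).natAbs) / 2)
    (hi : i ∈ A.support) : (M i).lev (A i).natAbs / 4 < |y.coord i| := by
  classical
  by_contra hcon
  rw [not_lt] at hcon
  set B := A.filter (fun k => k ≠ i) with hB
  have hBadm : Adm M B := hAdm.filter _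
  have h1 := value_filter_add A y (fun k => k ≠ i)
  rw [← hB] at h1
  have h2 : A.support.filter (fun k => ¬ k ≠ i) = {i} := by
    ext k
    rw [Finset.mem_filter, Finset.mem_singleton, not_not]
    exact ⟨fun h => h.2, fun h => ⟨h ▸ hi, h⟩⟩
  rw [h2, Finset.sum_singleton] at h1
  have h3 := term_le (M i) (A i) (y.coord i)
  have h5 := (M i).piece_le_neg (n := (A i).natAbs) (u := |y.coord i|) (by linarith)
  have hMp := (M i).M_lev_pos (A i).natAbs
  set QA := lin A y - cost M A
  set QB := lin B y - cost M B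
  set P := M i ((M i).lev (A i).natAbs) with hP
  have hw1 := one_le_wt (M := M) A
  have hw2 := wt_le_two (M := M) A
  have hwB := wt_filter' (M := M) A (fun k => k ≠ i)
  rw [← hB] at hwB
  have h7 : QA + P / 2 ≤ QB := by linarith
  have hQA : 0 ≤ QA := by
    by_contra hc
    rw [not_le] at hc
    have := mul_nonpos_of_nonneg_of_nonpos (by linarith : (0:ℝ) ≤ wt M A) hc.le
    linarith
  have h8 := value_le_of_fn hy hBadm
  have h9 : wt M A * (QA + P / 2) ≤ wt M B * QB :=
    mul_le_mul hwB h7 (by positivity) (by linarith)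
  have h10 : P / 2 ≤ wt M A * (P / 2) :=
    le_mul_of_one_le_left (by positivity) hw1
  linarith

/-! ### local finiteness -/

lemma mod_near {y y0 : MusSeq M} {K : ℝ} (hK : 0 < K) (h : ‖y - y0‖ < (2 * K)⁻¹) :
    mod K y ≤ mod (2 * K) y0 + 1 := by
  have h1 := mod_add_le (K := K) (a := 1 / 2) (b := 1 / 2) hK (by norm_num) (by norm_num)
    y0 (y - y0)
  have e1 : K / (1 / 2 + 1 / 2) = K := by norm_num
  have e2 : K / (1 / 2) = 2 * K := by ring
  have e3 : (1 / 2 : ℝ) / (1 / 2 + 1 / 2) = 1 / 2 := by norm_num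
  rw [e1, e2, e3, add_sub_cancel] at h1
  have h2 := mod_le_one_of_norm h
  have h3 := mod_nonneg (K := 2 * K) (by positivity) y0
  linarith

/-- the coordinates where `y` may be large -/
lemma coord_finite (y0 : MusSeq M) {η : ℝ} (hη : 0 < η) :
    {i | η ≤ M i (8 * |y0.coord i|)}.Finite := by
  have h1 := (y0.summable (show (0 : ℝ) < 8 by norm_num)).tendsto_cofinite_zero
  have h2 : ∀ᶠ i in cofinite, M i (8 * |y0.coord i|) < η :=
    (tendsto_order.1 h1).2 _ hη
  rw [eventually_cofinite] at h2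
  refine h2.subset (fun i hi => ?_)
  simp only [Set.mem_ofPred_eq, not_lt] at hi ⊢
  exact hi

lemma coord_near {y y0 : MusSeq M} {η : ℝ} (hη : 0 < η) (h : ‖y - y0‖ < (8 * (1 + 1 / η))⁻¹)
    {i : ℕ} (hi : M i (8 * |y0.coord i|) < η) : M i (4 * |y.coord i|) < η := by
  have hK : (0 : ℝ) < 1 + 1 / η := by positivity
  have h1 := mod_le_one_of_norm h
  have h2 := mod_mul_le (K := 8 * (1 + 1 / η)) (l := (1 + 1 / η)⁻¹) (by positivity)
    (inv_pos.2 hK) (inv_le_one_of_one_le₀ (by
      have : 0 < 1 / η := by positivity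
      linarith)) (y - y0)
  have e : (1 + 1 / η)⁻¹ * (8 * (1 + 1 / η)) = 8 := by field_simp
  rw [e] at h2
  have h3 : (1 + 1 / η)⁻¹ * mod (8 * (1 + 1 / η)) (y - y0) ≤ (1 + 1 / η)⁻¹ * 1 :=
    mul_le_mul_of_nonneg_left h1 (inv_pos.2 hK).le
  have h4 : (1 + 1 / η)⁻¹ * 1 < η := by
    rw [mul_one, inv_lt_comm₀ hK hη, ← one_div]
    linarith
  have h5 := coord_le_of_mod (show (0 : ℝ) < 8 by norm_num) (y - y0) i
  have h6 : M i (4 * |y.coord i|) ≤
      (M i (2 * (4 * |y0.coord i|)) + M i (2 * (4 * |(y - y0).coord i|))) / 2 := by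
    refine ((M i).mono (by positivity) ?_).trans ((M i).avg_le (by positivity) (by positivity))
    rw [← mul_add]
    apply mul_le_mul_of_nonneg_left _ (by norm_num)
    rw [coord_sub]
    have := abs_add_le (y0.coord i) (y.coord i - y0.coord i)
    rwa [add_sub_cancel] at this
  have e8 : ∀ a : ℝ, 2 * (4 * a) = 8 * a := fun a => by ring
  rw [e8, e8] at h6
  linarith

/-- Local finiteness of the family of functionals, near a point of the new unit ball. -/
theorem locally_finite (hM : ¬ HasSlowSeq M) (y0 : MusSeq M) :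
    ∃ δ : ℝ, 0 < δ ∧ ∃ e : ℝ, 0 < e ∧ ∃ 𝒜 : Finset Asg, ∀ y : MusSeq M, ‖y - y0‖ < δ →
      (∀ B, Adm M B → fn B y ≤ 1) → ∀ A, Adm M A → 1 - e ≤ fn A y → A ∈ 𝒜 := by
  classical
  set b : ℕ → ℝ := fun j => mod (2 * 2 ^ (j + 1)) y0 + 1 + 2 * (‖y0‖ + 1) with hb
  have hb1 : ∀ j, 1 ≤ b j := fun j => by
    have := mod_nonneg (K := 2 * 2 ^ (j + 1)) (by positivity) y0
    have := norm_nonneg y0
    simp only [hb]
    linarith
  set S : ℕ → ℝ := fun j => 48 * 2 ^ (j + 1) * b j with hS
  have hS1 : ∀ j, 1 ≤ S j := fun j => by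
    have h1 : (1 : ℝ) ≤ 2 ^ (j + 1) := one_le_pow₀ (by norm_num)
    have h2 := hb1 j
    simp only [hS]
    nlinarith
  obtain ⟨J, m, η0, hη00, hJ⟩ := exists_level_bound hM (fun j => 4 * S j ^ 2)
  -- the threshold
  set f : ℕ → ℝ := fun j => (1 / 2) ^ (j + 1) / (16 * S j) with hf
  have hf0 : ∀ j, 0 < f j := fun j => by
    have := hS1 j
    simp only [hf]
    positivity
  obtain ⟨η, hη0, hη2, hηM, hηf⟩ : ∃ η : ℝ, 0 < η ∧ η ≤ 1 / 2 ∧ η < η0 / 2 ∧
      ∀ j, j ≤ J → η < f j := by
    have hne : (Finset.range (J + 1)).Nonempty := ⟨0, by simp⟩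
    set g := (Finset.range (J + 1)).inf' hne f with hg
    have hg0 : 0 < g := by
      rw [hg, Finset.lt_inf'_iff]
      exact fun j _ => hf0 j
    refine ⟨min (1 / 2) (min (η0 / 2) g) / 2, by positivity, ?_, ?_, ?_⟩
    · have := min_le_left (1 / 2 : ℝ) (min (η0 / 2) g)
      linarith
    · have h1 := min_le_right (1 / 2 : ℝ) (min (η0 / 2) g)
      have h2 := min_le_left (η0 / 2) g
      have h3 : 0 < min (1 / 2 : ℝ) (min (η0 / 2) g) := by positivity
      linarith
    · intro j hj
      have h1 := min_le_right (1 / 2 : ℝ) (min (η0 / 2) g)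
      have h2 := min_le_right (η0 / 2) g
      have h3 : 0 < min (1 / 2 : ℝ) (min (η0 / 2) g) := by positivity
      have h4 : g ≤ f j := Finset.inf'_le _ (Finset.mem_range.2 (by omega))
      linarith
  set e : ℝ := min (1 / 4) (η / (1 + 4 * b 1)) with he
  have hb10 := hb1 1
  have he0 : 0 < e := by positivity
  have he4 : e ≤ 1 / 4 := min_le_left _ _
  have heη : e * (1 + 4 * b 1) ≤ η := by
    have h1 : e ≤ η / (1 + 4 * b 1) := min_le_right _ _
    rwa [le_div_iff₀ (by positivity)] at h1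
  -- the radius
  set δ : ℝ := min (min ((2 * 2 ^ (J + 1))⁻¹) 8⁻¹) ((8 * (1 + 1 / η0))⁻¹) with hδ
  have hδ0 : 0 < δ := by positivity
  set I := (coord_finite y0 hη00).toFinset with hI
  refine ⟨δ, hδ0, e, he0, Finset.finsupp (Finset.range m ∪ I)
    (fun i => Finset.Icc (-(Lx M i : ℤ)) (Lx M i)), ?_⟩
  intro y hy hyB A hAdm hA
  have hy1 : ‖y - y0‖ < (2 * 2 ^ (J + 1))⁻¹ :=
    lt_of_lt_of_le hy ((min_le_left _ _).trans (min_le_left _ _))
  have hy2 : ‖y - y0‖ < 8⁻¹ := lt_of_lt_of_le hy ((min_le_left _ _).trans (min_le_right _ _))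
  have hy3 : ‖y - y0‖ < (8 * (1 + 1 / η0))⁻¹ := lt_of_lt_of_le hy (min_le_right _ _)
  have hloss : ∀ j, j ≤ J → loss j y ≤ b j := by
    intro j hj
    cases j with
    | zero =>
      show 2 * ‖y‖ ≤ b 0
      have h1 : ‖y‖ ≤ ‖y0‖ + 1 := by
        have h2 := norm_add_le (y - y0) y0
        rw [sub_add_cancel] at h2
        have : (8 : ℝ)⁻¹ < 1 := by norm_num
        linarith
      have h3 := mod_nonneg (K := 2 * 2 ^ (0 + 1)) (by positivity) y0
      simp only [hb]
      linarith
    | succ j =>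
      show mod (2 ^ (j + 1)) y ≤ b (j + 1)
      have h1 : mod (2 ^ (j + 1)) y ≤ mod (2 * 2 ^ (j + 1)) y0 + 1 := by
        apply mod_near (by positivity)
        refine lt_of_lt_of_le hy1 ?_
        apply inv_anti₀ (by positivity)
        apply mul_le_mul_of_nonneg_left _ (by norm_num)
        exact pow_le_pow_right₀ (by norm_num) (by omega)
      have h2 : mod (2 * 2 ^ (j + 1)) y0 ≤ mod (2 * 2 ^ (j + 1 + 1)) y0 := by
        apply mod_mono (by positivity)
        apply mul_le_mul_of_nonneg_left _ (by norm_num)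
        exact pow_le_pow_right₀ (by norm_num) (by omega)
      have h3 := norm_nonneg y0
      simp only [hb]
      linarith
  have hmod4 : mod 4 y ≤ b 1 := by
    have h1 := mod_near (y := y) (y0 := y0) (K := 2 ^ (1 + 1)) (by positivity) (by
      norm_num
      norm_num at hy2
      exact hy2)
    have e4 : (2 : ℝ) ^ (1 + 1) = 4 := by norm_num
    rw [e4] at h1
    have h3 := norm_nonneg y0
    simp only [hb]
    rw [e4]
    linarith
  have hV := near_value he0.le he4 hmod4 hA
  have hV2 : 1 - η ≤ wt M A * (lin A y - cost M A) := by linarith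
  rw [Finset.mem_finsupp_iff]
  constructor
  · intro i hi
    rw [Finset.mem_union]
    have hne : A i ≠ 0 := Finsupp.mem_support_iff.1 hi
    rcases le_or_gt (M i ((M i).lev (A i).natAbs)) η0 with hc | hc
    · left
      rw [Finset.mem_range]
      by_contra hmi
      rw [not_lt] at hmi
      obtain ⟨j, hj, hjr⟩ := hJ i hmi (A i).natAbs (by
        have := Int.natAbs_pos.2 hne
        omega) (hAdm i) hc
      have h1 := level_bound hyB hAdm hη2 hV2 (by linarith [hb1 j]) (hloss j hj) (hS1 j)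
        le_rfl (hηf j hj) hi
      linarith
    · right
      have h1 := coord_bound hyB hAdm hη2 hV2 (i := i) (by linarith) hi
      rw [hI, Set.Finite.mem_toFinset, Set.mem_ofPred_eq]
      by_contra hcon
      rw [not_le] at hcon
      have h2 := coord_near hη00 hy3 hcon
      have h3 : M i ((M i).lev (A i).natAbs) ≤ M i (4 * |y.coord i|) :=
        (M i).mono ((M i).lev_pos _).le (by linarith)
      linarith
  · intro i hi
    have h1 := hAdm i
    rw [Finset.mem_Icc]
    constructor <;> omega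

end Pool.Agent.LibMusielak
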