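import Pool.Agent.Lib_MP_b3cab1_mus.MLocal
import Pool.Agent.Lib_MP_b3cab1_an.Poly

set_option autoImplicit false

/-!
# The renorming, Musielak-Orlicz case
-/

open Filter Topology Set

namespace Pool.Agent.LibMusielak

open Pool.Agent.LibOrlicz (OrliczFunction Asg LocFin HasLFCBump IsoPolyhedral)

open MusSeq

variable (M : ℕ → OrliczFunction)

/-- the space `h_M` with the new norm -/
def NewSeq : Type := MusSeq M

variable {M}

instance : AddCommGroup (NewSeq M) := inferInstanceAs (AddCommGroup (MusSeq M))

instance : Module ℝ (NewSeq M) := inferInstanceAs (Module ℝ (MusSeq M))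

/-- the identity -/
def toNew (M : ℕ → OrliczFunction) : MusSeq M ≃ₗ[ℝ] NewSeq M := LinearEquiv.refl ℝ (MusSeq M)

noncomputable instance : NormedAddCommGroup (NewSeq M) :=
  AddGroupNorm.toNormedAddCommGroup
    { toFun := fun x => nn ((toNew M).symm x)
      map_zero' := by
        have := nn_le_norm (M := M) 0
        rw [norm_zero, mul_zero] at this
        exact le_antisymm this (nn_nonneg _)
      add_le' := fun x y => nn_add_le _ _
      neg' := fun x => nn_neg _
      eq_zero_of_map_eq_zero' := fun x hx => by
        by_contra hne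
        exact (nn_pos (x := (toNew M).symm x) hne).ne' hx }

lemma norm_new (x : NewSeq M) : ‖x‖ = nn ((toNew M).symm x) := rfl

noncomputable instance : NormedSpace ℝ (NewSeq M) where
  norm_smul_le c x := by
    rw [norm_new, norm_new, Real.norm_eq_abs, map_smul, nn_smul]

/-- the isomorphism -/
noncomputable def equivNew (M : ℕ → OrliczFunction) : MusSeq M ≃L[ℝ] NewSeq M :=
  (toNew M).toContinuousLinearEquivOfBounds 4 4
    (fun x => by
      rw [norm_new, LinearEquiv.symm_apply_apply]
      exact nn_le_norm x)
    (fun y => by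
      rw [norm_new]
      exact norm_le_nn _)

lemma locFin_new (hM : ¬ HasSlowSeq M) : LocFin (Y := NewSeq M)
    (fun A : AdmAsg M =>
      (fnL M A.1).comp ((equivNew M).symm : NewSeq M →L[ℝ] MusSeq M)) where
  le := fun A y => fn_le_nn A.2 _
  sup := fun y s h => nn_le (fun A hA => h ⟨A, hA⟩)
  fin := fun y => by
    classical
    obtain ⟨δ, hδ, e, he, 𝒜, h⟩ := locally_finite hM ((equivNew M).symm y)
    refine ⟨δ / 4, by positivity, e, he, 𝒜.subtype (fun A => Adm M A),
      fun z hz hz1 A hA => ?_⟩
    rw [Finset.mem_subtype]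
    apply h ((equivNew M).symm z) _ _ A.1 A.2 hA
    · rw [← map_sub]
      refine lt_of_le_of_lt (norm_le_nn _) ?_
      have : ‖z - y‖ = nn ((equivNew M).symm (z - y)) := rfl
      rw [← this]
      linarith
    · intro B hB
      exact (fn_le_nn hB _).trans hz1

/-- Without slow sequences, `h_M` is isomorphic to a polyhedral space. -/
theorem isoPolyhedral_of (hM : ¬ HasSlowSeq M) : IsoPolyhedral (MusSeq M) :=
  ⟨NewSeq M, inferInstance, inferInstance, fun E _ => (locFin_new hM).polyhedral E,
    ⟨equivNew M⟩⟩

/-- the unit vectors -/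
noncomputable def unitVec (M : ℕ → OrliczFunction) (i : ℕ) : MusSeq M :=
  MusSeq.mk (Pi.single i 1) (fun K _ => by
    apply summable_of_ne_finset_zero (s := {i})
    intro k hk
    rw [Finset.mem_singleton] at hk
    rw [Pi.single_eq_of_ne hk, abs_zero, mul_zero, (M k).map_zero])

lemma coord_unitVec (i k : ℕ) : (unitVec M i).coord k = (Pi.single i 1 : ℕ → ℝ) k := rfl

instance : Nontrivial (MusSeq M) :=
  ⟨unitVec M 0, 0, fun h => by
    have := congrArg (fun x => MusSeq.coord x 0) h
    simp [coord_unitVec] at this⟩

instance : Nontrivial (NewSeq M) := inferInstanceAs (Nontrivial (MusSeq M))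

/-- Without slow sequences, `h_M` has a bump function which locally depends on finitely many
coordinates. -/
theorem hasLFCBump_of (hM : ¬ HasSlowSeq M) : HasLFCBump (MusSeq M) :=
  HasLFCBump.of_equiv (equivNew M) (locFin_new hM).hasLFCBump

end Pool.Agent.LibMusielak
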