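import Pool.Agent.Lib_MP_b3cab1_an.Slow
import Pool.Agent.Lib_MP_b3cab1_mus.MRenorm

set_option autoImplicit false

/-!
# If there is a slow sequence then there is no bump function that locally depends on finitely many
coordinates, Musielak-Orlicz case
-/

open Filter Topology Set

namespace Pool.Agent.LibMusielak

open Pool.Agent.LibOrlicz (OrliczFunction HasLFCBump exists_close)

open MusSeq

variable {M : ℕ → OrliczFunction}

/-- all coordinates are `0` or `± R t` -/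
def Pat (t : ℕ → ℝ) (R : ℝ) (z : MusSeq M) : Prop :=
  ∀ i, z.coord i = 0 ∨ z.coord i = R * t i ∨ z.coord i = -(R * t i)

/-- `z'` extends `z` -/
def Ext (z z' : MusSeq M) : Prop := ∀ i, z.coord i = 0 ∨ z'.coord i = z.coord i

lemma Ext.trans {z z' z'' : MusSeq M} (h : Ext z z') (h' : Ext z' z'') : Ext z z'' := by
  intro i
  rcases h i with h1 | h1
  · exact Or.inl h1
  · rcases h' i with h2 | h2
    · left; rw [← h1]; exact h2
    · right; rw [h2, h1]

section

variable {t : ℕ → ℝ} {R : ℝ}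

lemma Pat.abs {z : MusSeq M} (ht : ∀ n, 0 ≤ t n) (hR : 0 < R) (h : Pat t R z) (i : ℕ) :
    z.coord i = 0 ∨ |z.coord i| = R * t i := by
  have := ht i
  have h0 : 0 ≤ R * t i := by positivity
  rcases h i with h1 | h1 | h1
  · exact Or.inl h1
  · right; rw [h1, abs_of_nonneg h0]
  · right; rw [h1, abs_neg, abs_of_nonneg h0]

lemma Pat.sub {z z' : MusSeq M} (h : Pat t R z) (h' : Pat t R z') (he : Ext z z') :
    Pat t R (z' - z) := by
  intro i
  rw [coord_sub]
  rcases he i with h1 | h1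
  · rw [h1, sub_zero]; exact h' i
  · left; rw [h1, sub_self]

lemma mass_add {z z' : MusSeq M} {K : ℝ} (hK : 0 < K) (he : Ext z z') :
    mod K z' = mod K z + mod K (z' - z) := by
  unfold mod
  rw [← (z.summable hK).tsum_add ((z' - z).summable hK)]
  apply tsum_congr
  intro i
  rw [coord_sub]
  rcases he i with h1 | h1
  · rw [h1, sub_zero, abs_zero, mul_zero, (M i).map_zero, zero_add]
  · rw [h1, sub_self, abs_zero, mul_zero, (M i).map_zero, add_zero]

lemma mod_le_mass (ht : ∀ n, 0 ≤ t n) (hR : 0 < R)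
    (hC : ∀ K : ℝ, 0 < K → ∃ C : ℝ, ∀ i, M i (K * t i) ≤ C * M i (t i)) {K : ℝ} (hK : 0 < K) :
    ∃ C : ℝ, 0 ≤ C ∧ ∀ z : MusSeq M, Pat t R z → mod K z ≤ C * mod R⁻¹ z := by
  obtain ⟨C, h⟩ := hC (K * R) (by positivity)
  refine ⟨|C|, abs_nonneg _, fun z hz => ?_⟩
  unfold mod
  rw [← tsum_mul_left]
  refine (z.summable hK).tsum_le_tsum (fun i => ?_) ((z.summable (inv_pos.2 hR)).mul_left _)
  rcases hz.abs ht hR i with h1 | h1
  · rw [h1, abs_zero, mul_zero, mul_zero, (M i).map_zero, mul_zero]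
  · rw [h1, inv_mul_cancel_left₀ hR.ne', ← mul_assoc]
    refine (h i).trans ?_
    exact mul_le_mul_of_nonneg_right (le_abs_self C) ((M i).nonneg (ht _))

/-! ### the limit of an increasing sequence -/

lemma exists_limit (ht : ∀ n, 0 ≤ t n) (hR : 0 < R)
    (hC : ∀ K : ℝ, 0 < K → ∃ C : ℝ, ∀ i, M i (K * t i) ≤ C * M i (t i))
    (z : ℕ → MusSeq M) (hP : ∀ k, Pat t R (z k)) (hE : ∀ k l, k ≤ l → Ext (z k) (z l))
    (hm : ∀ k, mod R⁻¹ (z k) ≤ 1) :
    ∃ w : MusSeq M, Pat t R w ∧ (∀ k, Ext (z k) w) ∧ mod R⁻¹ w ≤ 1 ∧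
      Tendsto z atTop (𝓝 w) ∧ Tendsto (fun k => mod R⁻¹ (z k)) atTop (𝓝 (mod R⁻¹ w)) := by
  classical
  have hRi : 0 < R⁻¹ := inv_pos.2 hR
  have hlim : ∀ i, ∃ (c : ℝ) (K0 : ℕ), ∀ k, K0 ≤ k → (z k).coord i = c := by
    intro i
    by_cases h : ∃ k, (z k).coord i ≠ 0
    · obtain ⟨k, hk⟩ := h
      refine ⟨(z k).coord i, k, fun l hl => ?_⟩
      rcases hE k l hl i with h1 | h1
      · exact absurd h1 hk
      · exact h1
    · push Not at h
      exact ⟨0, 0, fun k _ => h k⟩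
  choose c K0 hc using hlim
  have hfin : ∀ I : Finset ℕ, ∃ k0, ∀ k, k0 ≤ k → ∀ i ∈ I, (z k).coord i = c i := by
    intro I
    refine ⟨I.sup K0, fun k hk i hi => hc i k ?_⟩
    exact (Finset.le_sup hi).trans hk
  have hsum : ∀ K : ℝ, 0 < K → ∃ C : ℝ, ∀ I : Finset ℕ, ∑ i ∈ I, M i (K * |c i|) ≤ C := by
    intro K hK
    obtain ⟨C, hC0, h⟩ := mod_le_mass (M := M) ht hR hC hK
    refine ⟨C, fun I => ?_⟩
    obtain ⟨k, hk⟩ := hfin I
    have h1 : ∑ i ∈ I, M i (K * |c i|) = ∑ i ∈ I, M i (K * |(z k).coord i|) :=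
      Finset.sum_congr rfl (fun i hi => by rw [hk k le_rfl i hi])
    rw [h1]
    refine (((z k).summable hK).sum_le_tsum I (fun i _ => (M i).nonneg (by positivity))).trans ?_
    refine (h (z k) (hP k)).trans ?_
    calc C * mod R⁻¹ (z k) ≤ C * 1 := mul_le_mul_of_nonneg_left (hm k) hC0
      _ = C := mul_one C
  have hsummable : ∀ K : ℝ, 0 < K → Summable fun i => M i (K * |c i|) := by
    intro K hK
    obtain ⟨C, h⟩ := hsum K hK
    exact summable_of_sum_le (fun i => (M i).nonneg (by positivity)) h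
  set w : MusSeq M := MusSeq.mk c hsummable with hw
  have hwc : ∀ i, w.coord i = c i := fun i => rfl
  have hPw : Pat t R w := by
    intro i
    rw [hwc, ← hc i (K0 i) le_rfl]
    exact hP _ i
  have hEw : ∀ k, Ext (z k) w := by
    intro k i
    rw [hwc]
    rcases hE k (max k (K0 i)) (le_max_left _ _) i with h1 | h1
    · exact Or.inl h1
    · right
      rw [← hc i (max k (K0 i)) (le_max_right _ _)]
      exact h1
  have hmono : ∀ k, mod R⁻¹ (z k) ≤ mod R⁻¹ w := by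
    intro k
    rw [mass_add hRi (hEw k)]
    linarith [mod_nonneg hRi.le (w - z k)]
  have hmass : Tendsto (fun k => mod R⁻¹ (z k)) atTop (𝓝 (mod R⁻¹ w)) := by
    rw [Metric.tendsto_atTop]
    intro ε hε
    have h1 := (w.summable hRi).hasSum
    have h2 : ∀ᶠ I : Finset ℕ in atTop, mod R⁻¹ w - ε < ∑ i ∈ I, M i (R⁻¹ * |w.coord i|) :=
      (tendsto_order.1 h1).1 _ (by show mod R⁻¹ w - ε < mod R⁻¹ w; linarith)
    obtain ⟨I, hI⟩ := h2.exists
    obtain ⟨k0, hk0⟩ := hfin I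
    refine ⟨k0, fun k hk => ?_⟩
    have h3 : ∑ i ∈ I, M i (R⁻¹ * |w.coord i|) = ∑ i ∈ I, M i (R⁻¹ * |(z k).coord i|) :=
      Finset.sum_congr rfl (fun i hi => by rw [hk0 k hk i hi, hwc])
    have h4 := ((z k).summable hRi).sum_le_tsum I (fun i _ => (M i).nonneg (by positivity))
    have h5 : mod R⁻¹ w - ε < mod R⁻¹ (z k) := by
      rw [h3] at hI
      exact hI.trans_le h4
    rw [Real.dist_eq, abs_lt]
    constructor
    · linarith
    · linarith [hmono k]
  have hz : Tendsto z atTop (𝓝 w) := by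
    rw [Metric.tendsto_atTop]
    intro δ hδ
    obtain ⟨C, hC0, h⟩ := mod_le_mass (M := M) ht hR hC (K := 2 / δ) (by positivity)
    rw [Metric.tendsto_atTop] at hmass
    obtain ⟨k0, hk0⟩ := hmass (1 / (C + 1)) (by positivity)
    refine ⟨k0, fun k hk => ?_⟩
    have h1 := hk0 k hk
    rw [Real.dist_eq, abs_lt] at h1
    have h2 : mod R⁻¹ (w - z k) < 1 / (C + 1) := by
      have := mass_add hRi (hEw k)
      linarith
    have h3 : mod (2 / δ) (w - z k) ≤ 1 := by
      refine (h _ ((hP k).sub hPw (hEw k))).trans ?_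
      calc C * mod R⁻¹ (w - z k) ≤ C * (1 / (C + 1)) := mul_le_mul_of_nonneg_left h2.le hC0
        _ ≤ 1 := by
          rw [mul_one_div, div_le_one (by linarith)]
          linarith
    have h4 := norm_le_of_mod (by positivity) h3
    rw [dist_comm, dist_eq_norm]
    have h5 : (2 / δ)⁻¹ = δ / 2 := by rw [inv_div]
    rw [h5] at h4
    linarith
  exact ⟨w, hPw, hEw, le_of_tendsto' hmass hm, hz, hmass⟩

/-! ### blocks -/

/-- the element with coordinates `R t i` for `i ∈ s` -/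
noncomputable def blk (M : ℕ → OrliczFunction) (t : ℕ → ℝ) (R : ℝ) (s : Finset ℕ) : MusSeq M :=
  MusSeq.mk (fun i => if i ∈ s then R * t i else 0) (fun K _ => by
    apply summable_of_ne_finset_zero (s := s)
    intro k hk
    rw [if_neg hk, abs_zero, mul_zero, (M k).map_zero])

lemma coord_blk (s : Finset ℕ) (i : ℕ) :
    (blk M t R s).coord i = if i ∈ s then R * t i else 0 := rfl

lemma pat_blk (s : Finset ℕ) : Pat t R (blk M t R s) := by
  intro i
  rw [coord_blk]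
  split
  · right; left; rfl
  · left; rfl

lemma mod_blk (ht : ∀ n, 0 ≤ t n) (hR : 0 < R) (s : Finset ℕ) :
    mod R⁻¹ (blk M t R s) = ∑ i ∈ s, M i (t i) := by
  unfold mod
  rw [tsum_eq_sum (s := s)]
  · apply Finset.sum_congr rfl
    intro i hi
    have h0 : 0 ≤ R * t i := mul_nonneg hR.le (ht i)
    rw [coord_blk, if_pos hi, abs_of_nonneg h0, inv_mul_cancel_left₀ hR.ne']
  · intro k hk
    rw [coord_blk, if_neg hk, abs_zero, mul_zero, (M k).map_zero]

lemma mod_neg (K : ℝ) (x : MusSeq M) : mod K (-x) = mod K x := by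
  unfold mod
  exact tsum_congr (fun i => by rw [coord_neg, abs_neg])

/-- far blocks of free coordinates -/
lemma exists_block (ht : ∀ n, 0 ≤ t n) (hR : 0 < R)
    (ht0 : Tendsto (fun i => M i (t i)) atTop (𝓝 0))
    (hts : ¬ Summable (fun i => M i (t i))) (z : MusSeq M) (hz : Pat t R z) {c : ℝ} (hc : 0 < c)
    (m : ℕ) : ∃ s : Finset ℕ, (∀ i ∈ s, m ≤ i ∧ z.coord i = 0) ∧ c ≤ ∑ i ∈ s, M i (t i) ∧
      ∑ i ∈ s, M i (t i) ≤ 2 * c := by
  classical
  have hRi : 0 < R⁻¹ := inv_pos.2 hR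
  obtain ⟨m1, hm1⟩ := eventually_atTop.1 ((tendsto_order.1 ht0).2 c hc)
  set m2 := max m m1 with hm2
  set u : ℕ → ℝ := fun i => if z.coord i = 0 then M i (t i) else 0 with hu
  have hu0 : ∀ i, 0 ≤ u i := by
    intro i
    simp only [hu]
    split
    · exact (M i).nonneg (ht i)
    · exact le_rfl
  have huc : ∀ i, m2 ≤ i → u i ≤ c := by
    intro i hi
    simp only [hu]
    split
    · exact (hm1 i ((le_max_right _ _).trans hi)).le
    · exact hc.le
  have hus : ¬ Summable u := by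
    intro hs
    apply hts
    refine (hs.add (z.summable hRi)).congr (fun i => ?_)
    simp only [hu]
    rcases hz.abs ht hR i with h1 | h1
    · rw [if_pos h1, h1, abs_zero, mul_zero, (M i).map_zero, add_zero]
    · by_cases h2 : z.coord i = 0
      · rw [if_pos h2, h2, abs_zero, mul_zero, (M i).map_zero, add_zero]
      · rw [if_neg h2, h1, inv_mul_cancel_left₀ hR.ne', zero_add]
  have h1 := (not_summable_iff_tendsto_nat_atTop_of_nonneg hu0).1 hus
  obtain ⟨N, hN⟩ := eventually_atTop.1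
    (h1.eventually_ge_atTop (c + ∑ i ∈ Finset.range m2, u i))
  have hex : ∃ N, m2 ≤ N ∧ c ≤ ∑ i ∈ Finset.Ico m2 N, u i := by
    refine ⟨max N m2, le_max_right _ _, ?_⟩
    have h2 := hN (max N m2) (le_max_left _ _)
    have h3 := Finset.sum_range_add_sum_Ico u (show m2 ≤ max N m2 from le_max_right _ _)
    linarith
  set N0 := Nat.find hex with hN0
  obtain ⟨hN1, hN2⟩ := Nat.find_spec hex
  rw [← hN0] at hN1 hN2
  have hN3 : m2 < N0 := by
    rcases hN1.eq_or_lt with h | h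
    · rw [← h, Finset.Ico_self, Finset.sum_empty] at hN2
      linarith
    · exact h
  obtain ⟨k, hk⟩ := Nat.exists_eq_succ_of_ne_zero (show N0 ≠ 0 by omega)
  have hmin : ¬ (m2 ≤ k ∧ c ≤ ∑ i ∈ Finset.Ico m2 k, u i) :=
    Nat.find_min hex (show k < Nat.find hex by rw [← hN0]; omega)
  have hmk : m2 ≤ k := by omega
  have hlt : ∑ i ∈ Finset.Ico m2 k, u i < c := by
    by_contra hcon
    exact hmin ⟨hmk, not_lt.1 hcon⟩
  have hsum : ∑ i ∈ (Finset.Ico m2 N0).filter (fun i => z.coord i = 0), M i (t i) =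
      ∑ i ∈ Finset.Ico m2 N0, u i := by
    rw [Finset.sum_filter]
  refine ⟨(Finset.Ico m2 N0).filter (fun i => z.coord i = 0), fun i hi => ?_, ?_, ?_⟩
  · rw [Finset.mem_filter, Finset.mem_Ico] at hi
    exact ⟨(le_max_left _ _).trans hi.1.1, hi.2⟩
  · rw [hsum]; exact hN2
  · rw [hsum, hk, Nat.succ_eq_add_one, Finset.sum_Ico_succ_top hmk]
    have := huc k hmk
    linarith

/-- two disjoint blocks with close values -/
lemma exists_pair (ht : ∀ n, 0 ≤ t n) (hR : 0 < R)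
    (ht0 : Tendsto (fun i => M i (t i)) atTop (𝓝 0))
    (hts : ¬ Summable (fun i => M i (t i))) (z : MusSeq M) (hz : Pat t R z) {c : ℝ} (hc : 0 < c)
    {δ : ℝ} (hδ : ∀ s : Finset ℕ, ∑ i ∈ s, M i (t i) ≤ 2 * c → ‖blk M t R s‖ ≤ δ)
    {n : ℕ} (φ : Fin n → (MusSeq M →L[ℝ] ℝ)) {η : ℝ} (hη : 0 < η) :
    ∃ s s' : Finset ℕ, Disjoint s s' ∧ (∀ i ∈ s, z.coord i = 0) ∧ (∀ i ∈ s', z.coord i = 0) ∧
      (c ≤ ∑ i ∈ s, M i (t i) ∧ ∑ i ∈ s, M i (t i) ≤ 2 * c) ∧
      (c ≤ ∑ i ∈ s', M i (t i) ∧ ∑ i ∈ s', M i (t i) ≤ 2 * c) ∧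
      ‖(fun l => φ l (blk M t R s) : Fin n → ℝ) - fun l => φ l (blk M t R s')‖ < η := by
  classical
  choose S hS1 hS2 hS3 using exists_block ht hR ht0 hts z hz hc
  set b : ℕ → ℕ := fun k => Nat.rec 0 (fun _ m => (max m ((S m).sup id)) + 1) k with hb
  have hbs : ∀ k, b (k + 1) = (max (b k) ((S (b k)).sup id)) + 1 := fun k => rfl
  have hbmono : StrictMono b := strictMono_nat_of_lt_succ (fun k => by
    rw [hbs]
    have := le_max_left (b k) ((S (b k)).sup id)
    omega)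
  have hlt : ∀ k, ∀ i ∈ S (b k), i < b (k + 1) := by
    intro k i hi
    rw [hbs]
    have h1 : i ≤ (S (b k)).sup id := Finset.le_sup (f := id) hi
    have := le_max_right (b k) ((S (b k)).sup id)
    omega
  have hdis' : ∀ k k', k < k' → Disjoint (S (b k)) (S (b k')) := by
    intro k k' hkk
    rw [Finset.disjoint_left]
    intro i hi1 hi2
    have h1 := hlt k i hi1
    have h2 := (hS1 (b k') i hi2).1
    have h3 : b (k + 1) ≤ b k' := hbmono.monotone hkk
    omega
  have hdis : ∀ k k', k ≠ k' → Disjoint (S (b k)) (S (b k')) := by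
    intro k k' hkk
    rcases lt_or_gt_of_ne hkk with h | h
    · exact hdis' k k' h
    · exact (hdis' k' k h).symm
  have hδ0 : 0 ≤ δ := (norm_nonneg _).trans (hδ _ (hS3 0))
  obtain ⟨k, k', hkk, hclose⟩ := exists_close
    (fun k => (fun l => φ l (blk M t R (S (b k))) : Fin n → ℝ))
    (B := ‖fun l => ‖φ l‖ * δ‖) (fun k => by
      rw [pi_norm_le_iff_of_nonneg (norm_nonneg _)]
      intro l
      refine ((φ l).le_opNorm _).trans ?_
      refine le_trans ?_ (norm_le_pi_norm (fun l => ‖φ l‖ * δ) l)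
      rw [Real.norm_of_nonneg (by positivity)]
      exact mul_le_mul_of_nonneg_left (hδ _ (hS3 _)) (norm_nonneg _)) hη
  exact ⟨S (b k), S (b k'), hdis k k' hkk, fun i hi => (hS1 _ i hi).2,
    fun i hi => (hS1 _ i hi).2, ⟨hS2 _, hS3 _⟩, ⟨hS2 _, hS3 _⟩, hclose⟩

/-! ### small extensions -/

lemma exists_extension (ht : ∀ n, 0 ≤ t n) (ht0 : Tendsto (fun i => M i (t i)) atTop (𝓝 0))
    (hts : ¬ Summable (fun i => M i (t i)))
    (hC : ∀ K : ℝ, 0 < K → ∃ C : ℝ, ∀ i, M i (K * t i) ≤ C * M i (t i)) (hR : 0 < R)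
    {b : MusSeq M → ℝ}
    (hb : ∀ x : MusSeq M, ∃ U ∈ nhds x, ∃ n : ℕ, ∃ φ : Fin n → (MusSeq M →L[ℝ] ℝ),
      ∃ g : (Fin n → ℝ) → ℝ, Continuous g ∧ ∀ z ∈ U, b z = g (fun i => φ i z))
    {ε : ℝ} (hε : 0 < ε) (z : MusSeq M) (hz : Pat t R z) (hm : mod R⁻¹ z < 1) :
    ∃ z' : MusSeq M, Pat t R z' ∧ Ext z z' ∧ mod R⁻¹ z < mod R⁻¹ z' ∧ mod R⁻¹ z' ≤ 1 ∧
      |b z' - b z| ≤ ε * (mod R⁻¹ z' - mod R⁻¹ z) := by
  classical
  have hRi : 0 < R⁻¹ := inv_pos.2 hR
  obtain ⟨U, hU, n, φ, g, hg, hgU⟩ := hb z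
  obtain ⟨δ, hδ, hδU⟩ := Metric.mem_nhds_iff.1 hU
  -- the mass of the blocks
  obtain ⟨C, hC0, hCm⟩ := mod_le_mass (M := M) ht hR hC (K := 2 / δ) (by positivity)
  set c : ℝ := min ((1 - mod R⁻¹ z) / 4) (1 / (4 * (C + 1))) with hc
  have hc0 : 0 < c := by
    have : 0 < 1 - mod R⁻¹ z := by linarith
    positivity
  have hc1 : 4 * c ≤ 1 - mod R⁻¹ z := by
    have : c ≤ (1 - mod R⁻¹ z) / 4 := min_le_left _ _
    linarith
  have hc2 : C * (4 * c) ≤ 1 := by
    have h1 : c ≤ 1 / (4 * (C + 1)) := min_le_right _ _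
    rw [le_div_iff₀ (by positivity)] at h1
    nlinarith
  have hsmall : ∀ y : MusSeq M, Pat t R y → mod R⁻¹ y ≤ 4 * c → ‖y‖ ≤ δ / 2 := by
    intro y hy hy1
    have h3 : mod (2 / δ) y ≤ 1 := by
      refine (hCm y hy).trans (le_trans ?_ hc2)
      exact mul_le_mul_of_nonneg_left hy1 hC0
    have h4 := norm_le_of_mod (by positivity) h3
    rwa [inv_div] at h4
  -- continuity of g
  have hgc : ContinuousAt g (fun i => φ i z) := hg.continuousAt
  rw [Metric.continuousAt_iff] at hgc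
  obtain ⟨η, hη, hgη⟩ := hgc (ε * (2 * c)) (by positivity)
  obtain ⟨s, s', hdis, hs0, hs0', ⟨hs1, hs2⟩, ⟨hs1', hs2'⟩, hclose⟩ :=
    exists_pair ht hR ht0 hts z hz hc0 (δ := δ / 2) (fun s hs => by
      apply hsmall _ (pat_blk s)
      rw [mod_blk ht hR]
      linarith) φ hη
  set y : MusSeq M := blk M t R s - blk M t R s' with hy
  have hycoord : ∀ i, y.coord i = (if i ∈ s then R * t i else 0) - if i ∈ s' then R * t i else 0 :=
    fun i => rfl
  have hypat : Pat t R y := by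
    intro i
    rw [hycoord]
    by_cases h1 : i ∈ s
    · right; left
      rw [if_pos h1, if_neg (fun h2 => Finset.disjoint_left.1 hdis h1 h2), sub_zero]
    · by_cases h2 : i ∈ s'
      · right; right
        rw [if_neg h1, if_pos h2, zero_sub]
      · left
        rw [if_neg h1, if_neg h2, sub_zero]
  have hymass : mod R⁻¹ y = ∑ i ∈ s, M i (t i) + ∑ i ∈ s', M i (t i) := by
    have hext : Ext (blk M t R s) y := by
      intro i
      rw [coord_blk, hycoord]
      by_cases h1 : i ∈ s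
      · right
        rw [if_pos h1, if_neg (fun h2 => Finset.disjoint_left.1 hdis h1 h2), sub_zero]
      · left
        rw [if_neg h1]
    rw [mass_add hRi hext, hy, sub_sub_cancel_left, mod_neg, mod_blk ht hR, mod_blk ht hR]
  have hext : Ext z (z + y) := by
    intro k
    rw [coord_add]
    by_cases h3 : k ∈ s
    · left; exact hs0 k h3
    · by_cases h4 : k ∈ s'
      · left; exact hs0' k h4
      · right; rw [hycoord, if_neg h3, if_neg h4, sub_zero, add_zero]
  have hmass : mod R⁻¹ (z + y) = mod R⁻¹ z + mod R⁻¹ y := by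
    rw [mass_add hRi hext, add_sub_cancel_left]
  have hnorm : ‖y‖ < δ := by
    have := hsmall y hypat (by rw [hymass]; linarith)
    linarith
  refine ⟨z + y, ?_, hext, by rw [hmass, hymass]; linarith, by rw [hmass, hymass]; linarith, ?_⟩
  · intro k
    rw [coord_add]
    by_cases h3 : z.coord k = 0
    · rw [h3, zero_add]; exact hypat k
    · have h4 : y.coord k = 0 := by
        rw [hycoord, if_neg (fun h => h3 (hs0 k h)), if_neg (fun h => h3 (hs0' k h)), sub_zero]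
      rw [h4, add_zero]; exact hz k
  · have hzU : z ∈ U := mem_of_mem_nhds hU
    have hyU : z + y ∈ U :=
      hδU (by rw [Metric.mem_ball, dist_eq_norm, add_sub_cancel_left]; exact hnorm)
    rw [hgU z hzU, hgU _ hyU, hmass, add_sub_cancel_left]
    have e : (fun l => φ l (z + y)) - (fun l => φ l z)
        = (fun l => φ l (blk M t R s)) - (fun l => φ l (blk M t R s')) := by
      funext l
      show φ l (z + y) - φ l z = φ l (blk M t R s) - φ l (blk M t R s')
      rw [map_add, add_sub_cancel_left, hy, map_sub]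
    have h3 : dist (fun l => φ l (z + y)) (fun l => φ l z) < η := by
      rw [dist_eq_norm, e]
      exact hclose
    have h4 := hgη h3
    rw [Real.dist_eq] at h4
    refine h4.le.trans ?_
    apply mul_le_mul_of_nonneg_left _ hε.le
    rw [hymass]
    linarith

end

/-! ### the main argument -/

/-- the relation `Leg`: pattern, extension, small change of `b` -/
def Leg (t : ℕ → ℝ) (R : ℝ) (b : MusSeq M → ℝ) (ε : ℝ) (z z' : MusSeq M) : Prop :=
  Pat t R z' ∧ Ext z z' ∧ mod R⁻¹ z' ≤ 1 ∧ |b z' - b z| ≤ ε * (mod R⁻¹ z' - mod R⁻¹ z)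

theorem no_bump_aux {t : ℕ → ℝ} {R : ℝ} (ht : ∀ n, 0 ≤ t n)
    (ht0 : Tendsto (fun i => M i (t i)) atTop (𝓝 0)) (hts : ¬ Summable (fun i => M i (t i)))
    (hC : ∀ K : ℝ, 0 < K → ∃ C : ℝ, ∀ i, M i (K * t i) ≤ C * M i (t i)) (hR : 0 < R)
    {b : MusSeq M → ℝ} (hbc : Continuous b) (hb0 : b 0 ≠ 0) (hbR : ∀ x, b x ≠ 0 → ‖x‖ < R)
    (hb : ∀ x : MusSeq M, ∃ U ∈ nhds x, ∃ n : ℕ, ∃ φ : Fin n → (MusSeq M →L[ℝ] ℝ),
      ∃ g : (Fin n → ℝ) → ℝ, Continuous g ∧ ∀ z ∈ U, b z = g (fun i => φ i z)) : False := by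
  classical
  have hRi : 0 < R⁻¹ := inv_pos.2 hR
  set ε : ℝ := |b 0| / 2 with hε
  have hb0' : 0 < |b 0| := abs_pos.2 hb0
  have hε0 : 0 < ε := by positivity
  have hmono : ∀ z z', Ext z z' → mod R⁻¹ z ≤ mod (M := M) R⁻¹ z' := by
    intro z z' h
    rw [mass_add hRi h]
    linarith [mod_nonneg hRi.le (z' - z)]
  have htrans : ∀ z z' z'', Leg t R b ε z z' → Leg t R b ε z' z'' → Leg t R b ε z z'' := by
    rintro z z' z'' ⟨h1, h2, h3, h4⟩ ⟨h5, h6, h7, h8⟩
    refine ⟨h5, h2.trans h6, h7, ?_⟩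
    have := abs_add_le (b z'' - b z') (b z' - b z)
    rw [sub_add_sub_cancel] at this
    linarith
  have hm0 : mod R⁻¹ (0 : MusSeq M) = 0 := by
    unfold mod
    simp
  -- masses are smaller than one
  have hlt : ∀ z, Leg t R b ε 0 z → mod R⁻¹ z < 1 := by
    rintro z ⟨h1, h2, h3, h4⟩
    have h5 : b z ≠ 0 := by
      intro h0
      rw [h0, hm0, sub_zero, zero_sub, abs_neg] at h4
      have : ε * mod R⁻¹ z ≤ ε * 1 := mul_le_mul_of_nonneg_left h3 hε0.le
      rw [hε] at this h4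
      linarith
    have h6 := hbR z h5
    obtain ⟨r, hr1, hr2⟩ := exists_between h6
    have hr0 : 0 < r := (norm_nonneg _).trans_lt hr1
    have h7 : mod r⁻¹ z ≤ 1 := mod_le_one_of_norm (by rwa [inv_inv])
    have h8 := mod_mul_le (K := r⁻¹) (l := r / R) (by positivity) (by positivity)
      (by rw [div_le_one hR]; exact hr2.le) z
    have e : r / R * r⁻¹ = R⁻¹ := by field_simp
    rw [e] at h8
    have h9 : r / R * mod r⁻¹ z ≤ r / R * 1 := mul_le_mul_of_nonneg_left h7 (by positivity)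
    have h10 : r / R < 1 := by rw [div_lt_one hR]; exact hr2
    linarith
  -- greedy step
  have hstep : ∀ z : MusSeq M, Pat t R z → mod R⁻¹ z ≤ 1 → ∃ z', Leg t R b ε z z' ∧
      ∀ z'', Leg t R b ε z z'' → mod R⁻¹ z'' - mod R⁻¹ z ≤ 2 * (mod R⁻¹ z' - mod R⁻¹ z) := by
    intro z hz hz1
    set S : Set ℝ := {s | ∃ z'', Leg t R b ε z z'' ∧ s = mod R⁻¹ z'' - mod R⁻¹ z} with hS
    have hzz : Leg t R b ε z z := ⟨hz, fun i => Or.inr rfl, hz1, by simp⟩
    have hSne : S.Nonempty := ⟨0, z, hzz, by simp⟩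
    have hSb : BddAbove S := by
      refine ⟨1, ?_⟩
      rintro _ ⟨z'', h, rfl⟩
      linarith [h.2.2.1, mod_nonneg hRi.le z]
    by_cases h0 : sSup S ≤ 0
    · refine ⟨z, hzz, fun z'' h => ?_⟩
      have := le_csSup hSb ⟨z'', h, rfl⟩
      rw [sub_self, mul_zero]
      exact this.trans h0
    · rw [not_le] at h0
      obtain ⟨s, ⟨z', h1, rfl⟩, h2⟩ := exists_lt_of_lt_csSup hSne (show sSup S / 2 < sSup S by linarith)
      refine ⟨z', h1, fun z'' h => ?_⟩
      have := le_csSup hSb ⟨z'', h, rfl⟩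
      linarith
  choose! F hF1 hF2 using hstep
  set z : ℕ → MusSeq M := fun k => F^[k] 0 with hz
  have hzs : ∀ k, z (k + 1) = F (z k) := fun k => Function.iterate_succ_apply' F k 0
  have hP0 : Pat t R (0 : MusSeq M) := fun i => Or.inl rfl
  have hzP : ∀ k, Pat t R (z k) ∧ mod R⁻¹ (z k) ≤ 1 := by
    intro k
    induction k with
    | zero =>
      refine ⟨hP0, ?_⟩
      show mod R⁻¹ (0 : MusSeq M) ≤ 1
      rw [hm0]; exact zero_le_one
    | succ k ih =>
      rw [hzs]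
      have := hF1 (z k) ih.1 ih.2
      exact ⟨this.1, this.2.2.1⟩
  have hleg : ∀ k, Leg t R b ε (z k) (z (k + 1)) := fun k => by
    rw [hzs]; exact hF1 (z k) (hzP k).1 (hzP k).2
  have hlegle : ∀ k l, k ≤ l → Leg t R b ε (z k) (z l) := by
    intro k l hkl
    induction l, hkl using Nat.le_induction with
    | base => exact ⟨(hzP k).1, fun i => Or.inr rfl, (hzP k).2, by simp⟩
    | succ l _ ih => exact htrans _ _ _ ih (hleg l)
  obtain ⟨w, hw1, hw2, hw3, hw4, hw5⟩ := exists_limit ht hR hC z (fun k => (hzP k).1)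
    (fun k l hkl => (hlegle k l hkl).2.1) (fun k => (hzP k).2)
  have hlegw : ∀ k, Leg t R b ε (z k) w := by
    intro k
    refine ⟨hw1, hw2 k, hw3, ?_⟩
    have h1 : Tendsto (fun l => |b (z l) - b (z k)|) atTop (𝓝 |b w - b (z k)|) :=
      (((hbc.tendsto w).comp hw4).sub_const _).abs
    have h2 : Tendsto (fun l => ε * (mod R⁻¹ (z l) - mod R⁻¹ (z k))) atTop
        (𝓝 (ε * (mod R⁻¹ w - mod R⁻¹ (z k)))) := (hw5.sub_const _).const_mul _
    exact le_of_tendsto_of_tendsto h1 h2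
      (eventually_atTop.2 ⟨k, fun l hl => (hlegle k l hl).2.2.2⟩)
  have hw0 : Leg t R b ε 0 w := hlegw 0
  obtain ⟨w', hw'1, hw'2, hw'3, hw'4, hw'5⟩ :=
    exists_extension ht ht0 hts hC hR hb hε0 w hw1 (hlt w hw0)
  have hlegw' : ∀ k, Leg t R b ε (z k) w' := fun k =>
    htrans _ _ _ (hlegw k) ⟨hw'1, hw'2, hw'4, hw'5⟩
  set β := mod R⁻¹ w' - mod R⁻¹ w with hβ
  have hβ0 : 0 < β := by linarith
  have hgain : ∀ k, β / 2 ≤ mod R⁻¹ (z (k + 1)) - mod R⁻¹ (z k) := by
    intro k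
    have h1 := hF2 (z k) (hzP k).1 (hzP k).2 w' (hlegw' k)
    rw [← hzs] at h1
    have h2 := hmono _ _ (hw2 k)
    linarith
  have hgrow : ∀ k : ℕ, k * (β / 2) ≤ mod R⁻¹ (z k) := by
    intro k
    induction k with
    | zero => simpa using mod_nonneg hRi.le (z 0)
    | succ k ih =>
      have := hgain k
      push_cast
      linarith
  obtain ⟨k, hk⟩ := exists_nat_gt (1 / (β / 2))
  have h1 := hgrow k
  have h2 := (hzP k).2
  rw [div_lt_iff₀ (by positivity)] at hk
  linarith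

/-- If there is a slow sequence then `h_M` has no continuous bump function which locally depends
on finitely many coordinates. -/
theorem not_hasLFCBump (hM : HasSlowSeq M) : ¬ HasLFCBump (MusSeq M) := by
  rintro ⟨f, hf, hf0, hfb, hfl⟩
  obtain ⟨t, ht, ht0, hts, hC⟩ := hM
  obtain ⟨x0, hx0⟩ : ∃ x0, f x0 ≠ 0 := by
    by_contra hcon
    push Not at hcon
    exact hf0 (funext hcon)
  obtain ⟨R, hR⟩ := hfb.exists_norm_le
  have hR' : ∀ x, f x ≠ 0 → ‖x‖ ≤ R := fun x hx => hR x hx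
  have hR0 : 0 ≤ R := (norm_nonneg _).trans (hR' x0 hx0)
  refine no_bump_aux (R := R + ‖x0‖ + 1) ht ht0 hts hC (by positivity)
    (b := fun x => f (x + x0)) (by fun_prop) (by simpa using hx0) ?_ ?_
  · intro x hx
    have h1 := hR' _ hx
    have h2 : ‖x‖ ≤ ‖x + x0‖ + ‖x0‖ := by
      have := norm_sub_le (x + x0) x0
      rwa [add_sub_cancel_right] at this
    linarith
  · intro x
    obtain ⟨U, hU, n, φ, g, hg, h⟩ := hfl (x + x0)
    refine ⟨(fun z => z + x0) ⁻¹' U, (continuous_add_right x0).continuousAt hU, n, φ,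
      fun v => g (fun i => v i + φ i x0), by fun_prop, fun z hz => ?_⟩
    show f (z + x0) = _
    rw [h _ hz]
    simp only [map_add]

end Pool.Agent.LibMusielak
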