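import Pool.Agent.Lib_MP_b3cab1_mus.Cap

set_option autoImplicit false

/-!
# Tails of the classes and the growth functions
-/

open Filter Topology Set

namespace Pool.Agent.LibMusielak

open Pool.Agent.LibOrlicz (OrliczFunction)

open MusSeq

lemma lev_add (P : OrliczFunction) (n J : ℕ) : 2 ^ J * P.lev (n + J) = P.lev n := by
  unfold OrliczFunction.lev
  rw [pow_add]
  field_simp

variable {M : ℕ → OrliczFunction}

/-- the pointwise estimate -/
lemma Fc_mul_le {C0 : ℕ → ℕ} {J0 J K : ℕ} (hK : 1 ≤ K) (i : ℕ) {u : ℝ} (hu : 0 ≤ u)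
    (hMu : M i u ≤ 1) : Fc M C0 J0 i * u ≤ 2 ^ (J + 2) * mu M C0 J0 i + 4 / K * M i u +
      2 ^ (J + 2) * mu M (fun j => K * 2 ^ j) J i := by
  classical
  have hK0 : (0 : ℝ) < K := by exact_mod_cast hK
  have h1 := mu_nonneg (M := M) C0 J0 i
  have h2 := mu_nonneg (M := M) (fun j => K * 2 ^ j) J i
  have h3 := (M i).nonneg hu
  have h4 : 0 ≤ 4 / (K : ℝ) * M i u := by positivity
  have h5 : (0 : ℝ) < 2 ^ (J + 2) := by positivity
  by_cases hex : ∃ n, Cls M C0 J0 i n
  · have hcls := fst_spec hex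
    set n := fst M C0 J0 i with hn
    have hF : Fc M C0 J0 i = (M i).slope n := by unfold Fc; rw [if_pos hex]
    have hmu : mu M C0 J0 i = M i ((M i).lev n) := by unfold mu; rw [if_pos hex]
    have ht := (M i).lev_pos n
    have hMt := (M i).M_lev_pos n
    set t := (M i).lev n with htdef
    have hFe : (M i).slope n = 2 * M i t / t := rfl
    rw [hF, hmu]
    have hJp : (0 : ℝ) < 2 ^ J := by positivity
    rcases le_or_gt u (2 ^ (J + 1) * t) with ha | ha
    · have : (M i).slope n * u ≤ 2 ^ (J + 2) * M i t := by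
        rw [hFe]
        calc 2 * M i t / t * u ≤ 2 * M i t / t * (2 ^ (J + 1) * t) :=
              mul_le_mul_of_nonneg_left ha (by positivity)
          _ = 2 ^ (J + 2) * M i t := by
              rw [pow_succ, pow_succ, pow_succ]
              field_simp
      have h6 : 0 ≤ 2 ^ (J + 2) * mu M (fun j => K * 2 ^ j) J i := by positivity
      linarith
    · rcases le_or_gt ((M i).slope n * u) (4 / K * M i u) with hb | hb
      · have h6 : 0 ≤ 2 ^ (J + 2) * mu M (fun j => K * 2 ^ j) J i := by positivity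
        have h7 : 0 ≤ 2 ^ (J + 2) * M i t := by positivity
        linarith
      · -- the almost linear case
        have hu0 : 0 < u := lt_trans (by positivity) ha
        have hMu2 : M i u < K / 2 * (u / t) * M i t := by
          have h6 : 4 / (K : ℝ) * M i u < 2 * M i t / t * u := by rw [← hFe]; exact hb
          rw [div_mul_eq_mul_div, div_lt_iff₀ hK0] at h6
          have e : 2 * M i t / t * u * K = 4 * (K / 2 * (u / t) * M i t) := by
            field_simp
            ring
          linarith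
        have hul : u < (M i).lev 0 := by
          by_contra hc
          rw [not_lt] at hc
          have h6 := (M i).mono ((M i).lev_pos 1).le
            (((M i).lev_antitone (Nat.zero_le 1)).trans hc)
          have h7 := (M i).two_le_M_lev_one
          linarith
        obtain ⟨n', hn'1, hn'2, hn'3⟩ := (M i).exists_lev hu0 hul
        have hl := lev_add (M i) n' J
        have ht' := (M i).lev_pos (n' + J)
        have hMt' := (M i).M_lev_pos (n' + J)
        set t' := (M i).lev (n' + J) with ht'def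
        have h6 : 2 ^ J * t' ≤ u := by rw [hl]; exact hn'2
        have h7 : u < 2 * (2 ^ J * t') := by rw [hl]; exact hn'3
        have htt' : t < t' := by
          have h8 : 2 ^ (J + 1) * t < 2 * (2 ^ J * t') := ha.trans h7
          rw [pow_succ] at h8
          have h9 : (2 ^ J * 2) * t < (2 ^ J * 2) * t' := by linarith
          exact lt_of_mul_lt_mul_left h9 (by positivity)
        have hnn : n' + J < n := by
          by_contra hc
          rw [not_lt] at hc
          have := (M i).lev_antitone hc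
          rw [← ht'def, ← htdef] at this
          linarith
        have hMt'1 : M i t' ≤ (1 / 2) ^ J := by
          have h8 : t' ≤ (1 / 2) ^ J * u := by
            rw [one_div, inv_pow, ← div_eq_inv_mul, le_div_iff₀ hJp]
            linarith
          refine ((M i).mono ht'.le h8).trans ?_
          refine ((M i).smul_le (by positivity)
            (pow_le_one₀ (by norm_num) (by norm_num)) hu).trans ?_
          exact mul_le_of_le_one_right (by positivity) hMu
        have hMtt' : M i t ≤ t / t' * M i t' := by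
          have := (M i).smul_le (l := t / t') (t := t') (by positivity)
            ((div_le_one ht').2 htt'.le) ht'.le
          rwa [div_mul_cancel₀ _ ht'.ne'] at this
        have hcls' : Cls M (fun j => K * 2 ^ j) J i (n' + J) := by
          refine ⟨by omega, by have := hcls.2.1; omega, hMt'1, fun j hj => ?_⟩
          unfold OrliczFunction.ratio
          rw [← ht'def, div_le_iff₀ hMt']
          push_cast
          have h8 : 2 ^ j * t' ≤ 2 ^ j / 2 ^ J * u := by
            rw [div_mul_eq_mul_div, le_div_iff₀ hJp]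
            have : (0 : ℝ) < 2 ^ j := by positivity
            nlinarith
          have h9 : (2 : ℝ) ^ j / 2 ^ J ≤ 1 := by
            rw [div_le_one hJp]
            exact pow_le_pow_right₀ (by norm_num) hj.le
          have h10 : M i (2 ^ j * t') ≤ 2 ^ j / 2 ^ J * M i u :=
            ((M i).mono (by positivity) h8).trans ((M i).smul_le (by positivity) h9 hu)
          have h11 : 2 ^ j / 2 ^ J * M i u ≤ 2 ^ j / 2 ^ J * (K / 2 * (u / t) * M i t) :=
            mul_le_mul_of_nonneg_left hMu2.le (by positivity)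
          have h12 : 2 ^ j / 2 ^ J * (K / 2 * (u / t) * M i t) ≤
              2 ^ j / 2 ^ J * (K / 2 * (u / t) * (t / t' * M i t')) := by
            apply mul_le_mul_of_nonneg_left _ (by positivity)
            exact mul_le_mul_of_nonneg_left hMtt' (by positivity)
          have h13 : 2 ^ j / 2 ^ J * (K / 2 * (u / t) * (t / t' * M i t')) =
              2 ^ j * K * M i t' * (u / (2 * (2 ^ J * t'))) := by
            field_simp
          have h14 : u / (2 * (2 ^ J * t')) ≤ 1 := by
            rw [div_le_one (by positivity)]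
            exact h7.le
          have h15 : 2 ^ j * K * M i t' * (u / (2 * (2 ^ J * t'))) ≤ 2 ^ j * K * M i t' :=
            mul_le_of_le_one_right (by positivity) h14
          linarith
        have h8 := le_mu hcls'
        rw [← ht'def] at h8
        have h9 : (M i).slope n * u ≤ 2 ^ (J + 2) * M i t' := by
          rw [hFe]
          have e1 : 2 * M i t / t * u = 2 * u / t * M i t := by ring
          rw [e1]
          calc 2 * u / t * M i t ≤ 2 * u / t * (t / t' * M i t') :=
                mul_le_mul_of_nonneg_left hMtt' (by positivity)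
            _ = 2 * u / t' * M i t' := by field_simp
            _ ≤ 2 * (2 * (2 ^ J * t')) / t' * M i t' := by
                apply mul_le_mul_of_nonneg_right _ hMt'.le
                apply div_le_div_of_nonneg_right _ ht'.le
                linarith
            _ = 2 ^ (J + 2) * M i t' := by
                rw [pow_succ, pow_succ]
                field_simp
        have h10 : 2 ^ (J + 2) * M i t' ≤ 2 ^ (J + 2) * mu M (fun j => K * 2 ^ j) J i :=
          mul_le_mul_of_nonneg_left h8 h5.le
        have h11 : 0 ≤ 2 ^ (J + 2) * M i t := by positivity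
        linarith
  · have hF : Fc M C0 J0 i = 0 := by unfold Fc; rw [if_neg hex]
    rw [hF, zero_mul]
    positivity

variable (M) in
/-- the tails of the class are small -/
def Good (C : ℕ → ℕ) (J : ℕ) : Prop :=
  ∀ ε : ℝ, 0 < ε → ∃ m, ∀ s : Finset ℕ, (∀ i ∈ s, m ≤ i) → ∀ y : MusSeq M, mod 1 y ≤ 1 →
    ∑ i ∈ s, Fc M C J i * |y.coord i| ≤ ε

lemma exists_tail {f : ℕ → ℝ} (hs : Summable f) {ε : ℝ} (hε : 0 < ε) :
    ∃ m, ∀ s : Finset ℕ, (∀ i ∈ s, m ≤ i) → ∑ i ∈ s, f i ≤ ε := by
  obtain ⟨s0, h⟩ := summable_iff_vanishing_norm.1 hs ε hε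
  refine ⟨s0.sup id + 1, fun s hs' => ?_⟩
  have h1 := h s (by
    rw [Finset.disjoint_left]
    intro i hi1 hi2
    have h2 := hs' i hi1
    have h3 : i ≤ s0.sup id := Finset.le_sup (f := id) hi2
    omega)
  rw [Real.norm_eq_abs] at h1
  exact (le_abs_self _).trans h1.le

theorem good_of_summable (hM : ¬ HasSlowSeq M) {C : ℕ → ℕ} {J : ℕ} (hs : Summable (mu M C J)) :
    Good M C J := by
  intro ε hε
  obtain ⟨K, hK⟩ := exists_nat_gt (8 / ε)
  have hK0 : (0 : ℝ) < K := lt_trans (by positivity) hK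
  have hK1 : 1 ≤ K := by
    rcases Nat.eq_zero_or_pos K with h | h
    · rw [h] at hK0; simp at hK0
    · exact h
  have h4K : 4 / (K : ℝ) ≤ ε / 2 := by
    rw [div_lt_iff₀ hε] at hK
    rw [div_le_iff₀ hK0]
    linarith
  obtain ⟨J1, hJ1⟩ := exists_summable_mu hM (fun j => K * 2 ^ j)
  obtain ⟨m1, hm1⟩ := exists_tail hs (ε := ε / 4 / 2 ^ (J1 + 2)) (by positivity)
  obtain ⟨m2, hm2⟩ := exists_tail hJ1 (ε := ε / 4 / 2 ^ (J1 + 2)) (by positivity)
  refine ⟨max m1 m2, fun s hs' y hy => ?_⟩
  have h1 := hm1 s (fun i hi => (le_max_left _ _).trans (hs' i hi))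
  have h2 := hm2 s (fun i hi => (le_max_right _ _).trans (hs' i hi))
  have hy1 : ∀ i, M i |y.coord i| ≤ 1 := fun i => by
    have := coord_le_of_mod one_pos y i
    rw [one_mul] at this
    exact this.trans hy
  have h3 : ∑ i ∈ s, M i |y.coord i| ≤ 1 := by
    refine le_trans ?_ hy
    have := (y.summable one_pos).sum_le_tsum s (fun i _ => (M i).nonneg (by positivity))
    simp only [one_mul] at this
    unfold mod
    simp only [one_mul]
    exact this
  calc ∑ i ∈ s, Fc M C J i * |y.coord i| ≤ ∑ i ∈ s, (2 ^ (J1 + 2) * mu M C J i +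
        4 / K * M i |y.coord i| + 2 ^ (J1 + 2) * mu M (fun j => K * 2 ^ j) J1 i) :=
        Finset.sum_le_sum (fun i _ => Fc_mul_le hK1 i (abs_nonneg _) (hy1 i))
    _ = 2 ^ (J1 + 2) * ∑ i ∈ s, mu M C J i + 4 / K * ∑ i ∈ s, M i |y.coord i| +
        2 ^ (J1 + 2) * ∑ i ∈ s, mu M (fun j => K * 2 ^ j) J1 i := by
        rw [Finset.sum_add_distrib, Finset.sum_add_distrib, ← Finset.mul_sum, ← Finset.mul_sum,
          ← Finset.mul_sum]
    _ ≤ ε / 4 + ε / 2 + ε / 4 := by
        have h5 : (0 : ℝ) < 2 ^ (J1 + 2) := by positivity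
        rw [le_div_iff₀ h5] at h1 h2
        have h6 : 4 / (K : ℝ) * ∑ i ∈ s, M i |y.coord i| ≤ 4 / (K : ℝ) * 1 :=
          mul_le_mul_of_nonneg_left h3 (by positivity)
        linarith
    _ = ε := by ring

/-! ### codes -/

/-- the sequence with code `e` -/
def gt (e : ℕ) : ℕ → ℕ := fun j => ((Encodable.decode (α := List ℕ) e).getD []).getD j 0

/-- the length of the sequence with code `e` -/
def ln (e : ℕ) : ℕ := ((Encodable.decode (α := List ℕ) e).getD []).length

lemma exists_code (C : ℕ → ℕ) (J : ℕ) : ∃ e, ln e = J ∧ ∀ j, j < J → C j = gt e j := by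
  refine ⟨Encodable.encode ((List.range J).map C), ?_, fun j hj => ?_⟩
  · unfold ln
    rw [Encodable.encodek]
    simp
  · unfold gt
    rw [Encodable.encodek]
    simp [List.getD, hj]

variable (M)

open Classical in
/-- where the tail of the class `e` is at most `(1 / 4) ^ k` -/
noncomputable def mt (e k : ℕ) : ℕ :=
  if h : Good M (gt e) (ln e) then (h ((1 / 4) ^ k) (by positivity)).choose else 0

/-- growth of the class `e` -/
noncomputable def re (e i : ℕ) : ℕ :=
  Nat.findGreatest (fun k => ∀ k', k' ≤ k → mt M e k' ≤ i) i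

open Classical in
/-- the exponent of the zeroth growth function -/
noncomputable def rr (i n : ℕ) : ℕ :=
  (Finset.range (i + 1)).sup (fun e =>
    if Good M (gt e) (ln e) ∧ Cls M (gt e) (ln e) i n then re M e i - e else 0)

/-- the growth functions -/
noncomputable def gr (j i n : ℕ) : ℝ :=
  match j with
  | 0 => 2 ^ (rr M i n)
  | j + 1 => (M i).ratio j n

variable {M}

lemma one_le_gr (j i n : ℕ) : 1 ≤ gr M j i n := by
  cases j with
  | zero => exact one_le_pow₀ (by norm_num)
  | succ j => exact (M i).one_le_ratio j n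

lemma gr_pos (j i n : ℕ) : 0 < gr M j i n := lt_of_lt_of_le one_pos (one_le_gr j i n)

lemma mt_spec {e : ℕ} (h : Good M (gt e) (ln e)) (k : ℕ) (s : Finset ℕ)
    (hs : ∀ i ∈ s, mt M e k ≤ i) (y : MusSeq M) (hy : mod 1 y ≤ 1) :
    ∑ i ∈ s, Fc M (gt e) (ln e) i * |y.coord i| ≤ (1 / 4) ^ k := by
  classical
  have e1 : mt M e k = (h ((1 / 4) ^ k) (by positivity)).choose := by
    unfold mt
    rw [dif_pos h]
  exact (h ((1 / 4) ^ k) (by positivity)).choose_spec s (fun i hi => by
    rw [← e1]; exact hs i hi) y hy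

lemma mt_le {e k i : ℕ} (hk : k ≤ re M e i) (hk0 : 0 < re M e i) : mt M e k ≤ i := by
  have h := Nat.findGreatest_of_ne_zero (P := fun k => ∀ k', k' ≤ k → mt M e k' ≤ i)
    (m := re M e i) (n := i) rfl (by omega)
  exact h k hk

lemma exists_le_re (e k : ℕ) : ∃ m, ∀ i, m ≤ i → k ≤ re M e i := by
  refine ⟨max k ((Finset.range (k + 1)).sup (fun k' => mt M e k')), fun i hi => ?_⟩
  apply Nat.le_findGreatest ((le_max_left _ _).trans hi)
  intro k' hk'
  have h1 : mt M e k' ≤ (Finset.range (k + 1)).sup (fun k' => mt M e k') :=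
    Finset.le_sup (f := fun k' => mt M e k') (Finset.mem_range.2 (by omega))
  exact h1.trans ((le_max_right _ _).trans hi)

lemma exists_of_rr {k i n : ℕ} (hk : 1 ≤ k) (h : k ≤ rr M i n) : ∃ e,
    Good M (gt e) (ln e) ∧ Cls M (gt e) (ln e) i n ∧ k + e ≤ re M e i := by
  classical
  obtain ⟨e, _, he⟩ := Finset.exists_mem_eq_sup (Finset.range (i + 1)) ⟨0, by simp⟩ (fun e =>
    if Good M (gt e) (ln e) ∧ Cls M (gt e) (ln e) i n then re M e i - e else 0)
  have h1 : k ≤ if Good M (gt e) (ln e) ∧ Cls M (gt e) (ln e) i n then re M e i - e else 0 := by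
    unfold rr at h
    rw [he] at h
    exact h
  split at h1
  · next h2 => exact ⟨e, h2.1, h2.2, by omega⟩
  · omega

lemma le_rr {e i n : ℕ} (he : e ≤ i) (hg : Good M (gt e) (ln e))
    (hc : Cls M (gt e) (ln e) i n) : re M e i - e ≤ rr M i n := by
  classical
  have h := Finset.le_sup (f := fun e =>
    if Good M (gt e) (ln e) ∧ Cls M (gt e) (ln e) i n then re M e i - e else 0)
    (Finset.mem_range.2 (show e < i + 1 by omega))
  unfold rr
  refine le_trans ?_ h
  show _ ≤ (if _ then _ else _)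
  rw [if_pos ⟨hg, hc⟩]

lemma loss_rr_aux {k : ℕ} (hk : 1 ≤ k) (s : Finset ℕ) (n : ℕ → ℕ)
    (h : ∀ i ∈ s, k ≤ rr M i (n i)) (y : MusSeq M) (hy : mod 1 y ≤ 1) :
    ∑ i ∈ s, (M i).slope (n i) * |y.coord i| ≤ 2 * (1 / 4) ^ k := by
  classical
  have h1 : ∀ i, ∃ e, i ∈ s → Good M (gt e) (ln e) ∧ Cls M (gt e) (ln e) i (n i) ∧
      k + e ≤ re M e i := by
    intro i
    by_cases hi : i ∈ s
    · obtain ⟨e, he⟩ := exists_of_rr hk (h i hi)
      exact ⟨e, fun _ => he⟩
    · exact ⟨0, fun h => absurd h hi⟩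
  choose ex hex using h1
  have h2 : ∑ i ∈ s, (M i).slope (n i) * |y.coord i| ≤
      ∑ i ∈ s, Fc M (gt (ex i)) (ln (ex i)) i * |y.coord i| := by
    apply Finset.sum_le_sum
    intro i hi
    exact mul_le_mul_of_nonneg_right (le_Fc (hex i hi).2.1) (abs_nonneg _)
  refine h2.trans ?_
  rw [← Finset.sum_fiberwise_of_maps_to (t := s.image ex)
    (fun i hi => Finset.mem_image_of_mem ex hi)]
  have h3 : ∀ e ∈ s.image ex, ∑ i ∈ s.filter (fun i => ex i = e),
      Fc M (gt (ex i)) (ln (ex i)) i * |y.coord i| ≤ (1 / 4) ^ k * (1 / 4) ^ e := by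
    intro e he
    obtain ⟨i0, hi0, hi0e⟩ := Finset.mem_image.1 he
    have hg : Good M (gt e) (ln e) := by rw [← hi0e]; exact (hex i0 hi0).1
    rw [← pow_add]
    have h4 : ∑ i ∈ s.filter (fun i => ex i = e), Fc M (gt (ex i)) (ln (ex i)) i * |y.coord i| =
        ∑ i ∈ s.filter (fun i => ex i = e), Fc M (gt e) (ln e) i * |y.coord i| := by
      apply Finset.sum_congr rfl
      intro i hi
      rw [(Finset.mem_filter.1 hi).2]
    rw [h4]
    apply mt_spec hg _ _ _ y hy
    intro i hi
    rw [Finset.mem_filter] at hi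
    have h5 := (hex i hi.1).2.2
    rw [hi.2] at h5
    exact mt_le h5 (by omega)
  refine (Finset.sum_le_sum h3).trans ?_
  rw [← Finset.mul_sum]
  have h4 : ∑ e ∈ s.image ex, (1 / 4 : ℝ) ^ e ≤ 2 := by
    have h5 : Summable fun e : ℕ => (1 / 4 : ℝ) ^ e :=
      summable_geometric_of_lt_one (by norm_num) (by norm_num)
    refine (h5.sum_le_tsum _ (fun e _ => by positivity)).trans ?_
    rw [tsum_geometric_of_lt_one (by norm_num) (by norm_num)]
    norm_num
  calc (1 / 4 : ℝ) ^ k * ∑ e ∈ s.image ex, (1 / 4 : ℝ) ^ e ≤ (1 / 4) ^ k * 2 :=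
        mul_le_mul_of_nonneg_left h4 (by positivity)
    _ = 2 * (1 / 4) ^ k := by ring

/-- the loss of the zeroth growth function -/
lemma loss_rr {C : ℝ} (hC : 1 ≤ C) (s : Finset ℕ) (n : ℕ → ℕ)
    (h : ∀ i ∈ s, C < gr M 0 i (n i)) (y : MusSeq M) :
    ∑ i ∈ s, (M i).slope (n i) * |y.coord i| ≤ 2 * ‖y‖ / C := by
  classical
  rcases s.eq_empty_or_nonempty with hs | hs
  · rw [hs, Finset.sum_empty]
    positivity
  · obtain ⟨i0, hi0, hmin⟩ := s.exists_min_image (fun i => rr M i (n i)) hs
    set k := rr M i0 (n i0) with hk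
    have h1 : C < 2 ^ k := h i0 hi0
    have hk1 : 1 ≤ k := by
      rcases Nat.eq_zero_or_pos k with h0 | h0
      · rw [h0, pow_zero] at h1; linarith
      · exact h0
    have h2 : (1 / 4 : ℝ) ^ k ≤ 1 / C := by
      have e : (1 / 4 : ℝ) ^ k = 1 / (2 ^ k * 2 ^ k) := by
        rw [← mul_pow, one_div_pow]
        norm_num
      rw [e]
      apply one_div_le_one_div_of_le (by linarith)
      nlinarith
    apply le_of_forall_pos_le_add
    intro ε hε
    set r := ‖y‖ + ε * C / 2 with hr
    have hr0 : 0 < r := by positivity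
    have h3 : mod 1 (r⁻¹ • y) ≤ 1 := by
      apply mod_le_one_of_norm
      rw [norm_smul, Real.norm_eq_abs, abs_of_pos (inv_pos.2 hr0), inv_mul_lt_iff₀ hr0, inv_one,
        mul_one, hr]
      have : 0 < ε * C / 2 := by positivity
      linarith
    have h4 := loss_rr_aux hk1 s n (fun i hi => hmin i hi) (r⁻¹ • y) h3
    have h5 : ∑ i ∈ s, (M i).slope (n i) * |(r⁻¹ • y).coord i| =
        r⁻¹ * ∑ i ∈ s, (M i).slope (n i) * |y.coord i| := by
      rw [Finset.mul_sum]
      apply Finset.sum_congr rfl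
      intro i _
      rw [coord_smul, abs_mul, abs_of_pos (inv_pos.2 hr0)]
      ring
    rw [h5, inv_mul_le_iff₀ hr0] at h4
    refine h4.trans ?_
    have h6 : r * (2 * (1 / 4) ^ k) ≤ r * (2 * (1 / C)) :=
      mul_le_mul_of_nonneg_left (by linarith) hr0.le
    refine h6.trans (le_of_eq ?_)
    rw [hr]
    field_simp

/-- without slow sequences, all small levels at far coordinates have some large growth -/
lemma exists_level_bound (hM : ¬ HasSlowSeq M) (C : ℕ → ℝ) : ∃ J m : ℕ, ∃ η : ℝ, 0 < η ∧
    ∀ i, m ≤ i → ∀ n, 1 ≤ n → n ≤ Lx M i → M i ((M i).lev n) ≤ η →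
      ∃ j, j ≤ J ∧ C j ≤ gr M j i n := by
  obtain ⟨J, hJ⟩ := exists_summable_mu hM (fun j => ⌈C (j + 1)⌉₊)
  obtain ⟨e, he1, he2⟩ := exists_code (fun j => ⌈C (j + 1)⌉₊) J
  have hg : Good M (fun j => ⌈C (j + 1)⌉₊) J := good_of_summable hM hJ
  have hge : Good M (gt e) (ln e) := by
    rw [he1]
    intro ε hε
    obtain ⟨m, hm⟩ := hg ε hε
    refine ⟨m, fun s hs y hy => ?_⟩
    have h1 := hm s hs y hy
    have h2 : ∀ i, Fc M (gt e) J i = Fc M (fun j => ⌈C (j + 1)⌉₊) J i := fun i =>
      Fc_congr (fun j hj => (he2 j hj).symm) i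
    simp only [h2]
    exact h1
  obtain ⟨k0, hk0⟩ := pow_unbounded_of_one_lt (C 0) (one_lt_two)
  obtain ⟨m0, hm0⟩ := exists_le_re (M := M) e (k0 + e)
  refine ⟨J, max m0 e, (1 / 2) ^ J, by positivity, fun i hi n hn1 hn2 hn3 => ?_⟩
  by_contra hcon
  push Not at hcon
  have hcls : Cls M (gt e) (ln e) i n := by
    rw [he1]
    refine Cls.congr M he2 ⟨hn1, hn2, hn3, fun j hj => ?_⟩
    have h1 := hcon (j + 1) (by omega)
    exact h1.le.trans (Nat.le_ceil _)
  have h1 := le_rr ((le_max_right _ _).trans hi) hge hcls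
  have h2 := hm0 i ((le_max_left _ _).trans hi)
  have h3 : k0 ≤ rr M i n := by omega
  have h4 := hcon 0 (Nat.zero_le _)
  have h5 : (2 : ℝ) ^ k0 ≤ gr M 0 i n := pow_le_pow_right₀ (by norm_num) h3
  linarith

end Pool.Agent.LibMusielak
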